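import Pool.Agent.K1H93.W.Ext

set_option autoImplicit false

/-! # Many disjoint pairs with the same small difference -/

namespace Pool.Agent.K1H93.W

theorem card_window (P : Finset ℕ) (y G t : ℕ) (hG : 0 < G) (hy : ∀ p ∈ P, y ≤ p) :
    (P.filter (fun p => (p - y) / G = t)).card ≤ G := by
  have : (P.filter (fun p => (p - y) / G = t)) ⊆ Finset.Ico (y + G * t) (y + G * t + G) := by
    intro p hp
    rw [Finset.mem_filter] at hp
    obtain ⟨h1, h2⟩ := hp
    have h3 := hy p h1
    have h4 := Nat.div_add_mod (p - y) G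
    have h5 := Nat.mod_lt (p - y) hG
    rw [h2] at h4
    rw [Finset.mem_Ico]
    omega
  calc _ ≤ (Finset.Ico (y + G * t) (y + G * t + G)).card := Finset.card_le_card this
    _ = G := by simp

theorem level0 (P : Finset ℕ) (y G T : ℕ) (hG : 2 ≤ G) (hT : y ≤ T * G)
    (hP : ∀ p ∈ P, y ≤ p ∧ p < 2 * y) :
    ∃ d, 1 ≤ d ∧ d < G ∧ ∃ X ⊆ P, (X.image (· + d)) ⊆ P ∧ Disjoint X (X.image (· + d)) ∧
      P.card ≤ T + X.card * G ^ 2 := by
  classical
  set f : ℕ → ℕ := fun p => (p - y) / G with hf
  have hmaps : ∀ p ∈ P, f p ∈ Finset.range T := by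
    intro p hp
    have h1 := hP p hp
    rw [Finset.mem_range, hf]
    simp only
    rw [Nat.div_lt_iff_lt_mul (by omega)]
    omega
  set T2 := (Finset.range T).filter (fun t => 2 ≤ (P.filter (fun p => f p = t)).card) with hT2
  have hcard : P.card ≤ T + T2.card * G := by
    rw [Finset.card_eq_sum_card_fiberwise hmaps]
    calc ∑ t ∈ Finset.range T, (P.filter (fun p => f p = t)).card
        ≤ ∑ t ∈ Finset.range T, (1 + if 2 ≤ (P.filter (fun p => f p = t)).card then G else 0) := by
          apply Finset.sum_le_sum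
          intro t _
          have h1 := card_window P y G t (by omega) (fun p hp => (hP p hp).1)
          split_ifs with h2
          · exact h1.trans (by omega)
          · omega
      _ = T + T2.card * G := by
          rw [Finset.sum_add_distrib, ← Finset.sum_filter, Finset.sum_const, Finset.sum_const,
            Finset.card_range]
          simp [hT2]
  have hex : ∀ t ∈ T2, ∃ a b, a ∈ P ∧ b ∈ P ∧ f a = t ∧ f b = t ∧ a < b := by
    intro t ht
    rw [hT2, Finset.mem_filter] at ht
    obtain ⟨a, ha, b, hb, hab⟩ := Finset.one_lt_card.1 (show 1 < _ from ht.2)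
    rw [Finset.mem_filter] at ha hb
    rcases lt_or_gt_of_ne hab with h | h
    · exact ⟨a, b, ha.1, hb.1, ha.2, hb.2, h⟩
    · exact ⟨b, a, hb.1, ha.1, hb.2, ha.2, h⟩
  choose! a b haP hbP hfa hfb hab using hex
  have hlt : ∀ t ∈ T2, b t - a t < G := by
    intro t ht
    have h1 := hfa t ht
    have h2 := hfb t ht
    rw [hf] at h1 h2
    simp only at h1 h2
    have h3 := Nat.div_add_mod (a t - y) G
    have h4 := Nat.div_add_mod (b t - y) G
    have h5 := Nat.mod_lt (b t - y) (show 0 < G by omega)
    rw [h1] at h3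
    rw [h2] at h4
    have h6 := (hP _ (haP t ht)).1
    have h7 := (hP _ (hbP t ht)).1
    have h8 := hab t ht
    omega
  have hd : ∃ d ∈ Finset.Ico 1 G, T2.card ≤ G * (T2.filter (fun t => b t - a t = d)).card := by
    by_contra hcon
    push Not at hcon
    have h1 : T2.card = ∑ d ∈ Finset.Ico 1 G, (T2.filter (fun t => b t - a t = d)).card := by
      apply Finset.card_eq_sum_card_fiberwise
      intro t ht
      have h2 := hab t ht
      have h3 := hlt t ht
      simp only [Finset.coe_Ico, Set.mem_Ico]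
      omega
    have h2 : G * T2.card ≤ ∑ d ∈ Finset.Ico 1 G, (T2.card - 1) := by
      rw [h1, Finset.mul_sum]
      rw [← h1]
      apply Finset.sum_le_sum
      intro d hd
      have := hcon d hd
      omega
    rw [Finset.sum_const, Nat.card_Ico, smul_eq_mul] at h2
    have h3 := hcon 1 (by simp; omega)
    have h4 : (G - 1) * (T2.card - 1) ≤ (G - 1) * T2.card := Nat.mul_le_mul_left _ (Nat.sub_le _ _)
    have h5 : (G - 1) * T2.card < G * T2.card := by
      apply Nat.mul_lt_mul_of_pos_right (by omega)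
      omega
    omega
  obtain ⟨d, hd, hd2⟩ := hd
  rw [Finset.mem_Ico] at hd
  set F := T2.filter (fun t => b t - a t = d) with hF
  have hFT : ∀ t ∈ F, t ∈ T2 := fun t ht => (Finset.mem_filter.1 ht).1
  have hFd : ∀ t ∈ F, b t = a t + d := by
    intro t ht
    have h1 := (Finset.mem_filter.1 ht).2
    have h2 := hab t (hFT t ht)
    omega
  have hinj : Set.InjOn a F := by
    intro s hs t ht h
    have h1 := hfa s (hFT s hs)
    have h2 := hfa t (hFT t ht)
    rw [← h1, ← h2, h]
  refine ⟨d, hd.1, hd.2, F.image a, ?_, ?_, ?_, ?_⟩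
  · intro x hx
    obtain ⟨t, ht, rfl⟩ := Finset.mem_image.1 hx
    exact haP t (hFT t ht)
  · intro x hx
    obtain ⟨z, hz, rfl⟩ := Finset.mem_image.1 hx
    obtain ⟨t, ht, rfl⟩ := Finset.mem_image.1 hz
    rw [← hFd t ht]
    exact hbP t (hFT t ht)
  · rw [Finset.disjoint_left]
    intro x hx hx2
    obtain ⟨s, hs, rfl⟩ := Finset.mem_image.1 hx
    obtain ⟨z, hz, h1⟩ := Finset.mem_image.1 hx2
    obtain ⟨t, ht, rfl⟩ := Finset.mem_image.1 hz
    rw [← hFd t ht] at h1
    have h2 := hfa s (hFT s hs)
    have h3 := hfb t (hFT t ht)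
    rw [h1, h2] at h3
    subst h3
    have := hab s (hFT s hs)
    omega
  · rw [Finset.card_image_of_injOn hinj]
    calc P.card ≤ T + T2.card * G := hcard
      _ ≤ T + (G * F.card) * G := by gcongr
      _ = T + F.card * G ^ 2 := by ring

end Pool.Agent.K1H93.W
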