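import Pool.Agent.K1H93.W.Ext

set_option autoImplicit false

/-! # Pairs in a residue class, sums of differences, residues -/

namespace Pool.Agent.K1H93.W

theorem orderEmb_growth {C : Finset ℕ} {d : ℕ} (hcls : ∀ p ∈ C, ∀ q ∈ C, p ≡ q [MOD d]) {c : ℕ}
    (hc : C.card = c) (n : ℕ) : ∀ (s t : Fin c), t.1 = s.1 + n →
      C.orderEmbOfFin hc s + d * n ≤ C.orderEmbOfFin hc t := by
  induction n with
  | zero =>
    intro s t h
    have : s = t := by ext; omega
    rw [this]
    simp
  | succ n ih =>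
    intro s t h
    have hlt : s.1 + n < c := by have := t.2; omega
    have h1 := ih s ⟨s.1 + n, hlt⟩ rfl
    have h2 : C.orderEmbOfFin hc ⟨s.1 + n, hlt⟩ < C.orderEmbOfFin hc t := by
      apply (C.orderEmbOfFin hc).strictMono
      rw [Fin.lt_def]
      simp only
      omega
    have h3 := hcls _ (C.orderEmbOfFin_mem hc ⟨s.1 + n, hlt⟩) _ (C.orderEmbOfFin_mem hc t)
    have h4 : d ∣ C.orderEmbOfFin hc t - C.orderEmbOfFin hc ⟨s.1 + n, hlt⟩ :=
      (Nat.modEq_iff_dvd' h2.le).1 h3
    have h5 := Nat.le_of_dvd (by omega) h4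
    rw [Nat.mul_succ]
    omega

theorem level1 (C : Finset ℕ) (d W h : ℕ) (hcls : ∀ p ∈ C, ∀ q ∈ C, p ≡ q [MOD d])
    (hW : ∀ p ∈ C, ∀ q ∈ C, p ≤ q + W) (hcard : 2 * h ≤ C.card) :
    ∃ a b : Fin h → ℕ, Function.Injective a ∧ Function.Injective b ∧ (∀ s t, a s ≠ b t) ∧
      (∀ t, a t ∈ C) ∧ (∀ t, b t ∈ C) ∧ (∀ t, a t + d * h ≤ b t) ∧ (∀ t, b t ≤ a t + W) ∧
      (∀ t, d ∣ b t - a t) := by
  have hc : C.card = C.card := rfl
  set f := C.orderEmbOfFin hc with hf
  have hinj : Function.Injective f := f.injective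
  refine ⟨fun t => f ⟨t.1, by have := t.2; omega⟩, fun t => f ⟨t.1 + h, by have := t.2; omega⟩,
    ?_, ?_, ?_, ?_, ?_, ?_, ?_, ?_⟩
  · intro s t e
    have := hinj e
    rw [Fin.mk.injEq] at this
    exact Fin.ext this
  · intro s t e
    have := hinj e
    rw [Fin.mk.injEq] at this
    exact Fin.ext (by omega)
  · intro s t e
    have := hinj e
    rw [Fin.mk.injEq] at this
    have := s.2
    omega
  · intro t
    exact C.orderEmbOfFin_mem hc _
  · intro t
    exact C.orderEmbOfFin_mem hc _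
  · intro t
    exact orderEmb_growth hcls hc h _ _ rfl
  · intro t
    exact hW _ (C.orderEmbOfFin_mem hc _) _ (C.orderEmbOfFin_mem hc _)
  · intro t
    have h1 := orderEmb_growth hcls hc h ⟨t.1, by have := t.2; omega⟩
      ⟨t.1 + h, by have := t.2; omega⟩ rfl
    exact (Nat.modEq_iff_dvd' (le_trans (Nat.le_add_right _ _) h1)).1
      (hcls _ (C.orderEmbOfFin_mem hc _) _ (C.orderEmbOfFin_mem hc _))

theorem SS_pairs {ι : Type*} [DecidableEq ι] (I : Finset ι) (a b : ι → ℕ) (ha : Set.InjOn a I)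
    (hb : Set.InjOn b I) (hab : ∀ s ∈ I, ∀ t ∈ I, a s ≠ b t) (hle : ∀ t ∈ I, a t ≤ b t)
    (J : Finset ι) (hJ : J ⊆ I) :
    SS (I.image a ∪ I.image b) (∑ t ∈ I, a t + ∑ t ∈ J, (b t - a t)) := by
  refine ⟨(I \ J).image a ∪ J.image b, ?_, ?_⟩
  · apply Finset.union_subset_union
    · exact Finset.image_subset_image Finset.sdiff_subset
    · exact Finset.image_subset_image hJ
  · rw [Finset.sum_union]
    · rw [Finset.sum_image, Finset.sum_image]
      · rw [← Finset.sum_sdiff hJ (f := a), add_assoc, ← Finset.sum_add_distrib]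
        congr 1
        apply Finset.sum_congr rfl
        intro t ht
        have := hle t (hJ ht)
        omega
      · exact fun x hx y hy h => hb (hJ hx) (hJ hy) h
      · exact fun x hx y hy h => ha (Finset.sdiff_subset hx) (Finset.sdiff_subset hy) h
    · rw [Finset.disjoint_left]
      intro x hx hy
      obtain ⟨s, hs, rfl⟩ := Finset.mem_image.1 hx
      obtain ⟨t, ht, h⟩ := Finset.mem_image.1 hy
      exact hab s (Finset.sdiff_subset hs) t (hJ ht) h.symm

theorem mult_sums {ι : Type*} [DecidableEq ι] (d N : ℕ) (D : ι → ℕ) (I : Finset ι)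
    (hD : ∀ t ∈ I, d ∣ D t) (hDW : ∀ t ∈ I, D t ≤ d * N) :
    ∀ n, d ∣ n → n ≤ d * N + ∑ t ∈ I, D t → ∃ c ≤ N, ∃ J ⊆ I, n = d * c + ∑ t ∈ J, D t := by
  induction I using Finset.induction_on with
  | empty =>
    rintro n ⟨c, rfl⟩ h
    simp only [Finset.sum_empty, add_zero] at h
    rcases Nat.eq_zero_or_pos d with rfl | hd
    · exact ⟨0, Nat.zero_le _, ∅, subset_rfl, by simp⟩
    · exact ⟨c, Nat.le_of_mul_le_mul_left h hd, ∅, subset_rfl, by simp⟩
  | insert t I ht ih =>
    intro n hn h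
    have ih' := ih (fun s hs => hD s (Finset.mem_insert_of_mem hs))
      (fun s hs => hDW s (Finset.mem_insert_of_mem hs))
    rw [Finset.sum_insert ht] at h
    by_cases h1 : n ≤ d * N + ∑ s ∈ I, D s
    · obtain ⟨c, hc, J, hJ, e⟩ := ih' n hn h1
      exact ⟨c, hc, J, hJ.trans (Finset.subset_insert _ _), e⟩
    · have h2 := hDW t (Finset.mem_insert_self _ _)
      have h3 : D t ≤ n := by omega
      obtain ⟨c, hc, J, hJ, e⟩ := ih' (n - D t)
        (Nat.dvd_sub hn (hD t (Finset.mem_insert_self _ _))) (by omega)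
      refine ⟨c, hc, insert t J, Finset.insert_subset_insert _ hJ, ?_⟩
      rw [Finset.sum_insert (fun h => ht (hJ h))]
      omega

theorem zmod_closed {d : ℕ} [NeZero d] {A : Finset (ZMod d)} (hA : A.Nonempty) {p : ZMod d}
    (hp : IsUnit p) (h : ∀ x ∈ A, x + p ∈ A) : A = Finset.univ := by
  obtain ⟨a, ha⟩ := hA
  have h1 : ∀ n : ℕ, a + n * p ∈ A := by
    intro n
    induction n with
    | zero => simpa using ha
    | succ n ih =>
      have := h _ ih
      rw [add_assoc] at this
      convert this using 2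
      push_cast
      ring
  rw [Finset.eq_univ_iff_forall]
  intro x
  obtain ⟨u, rfl⟩ := hp
  have h2 := h1 ((x - a) * (u⁻¹ : (ZMod d)ˣ)).val
  rw [ZMod.natCast_zmod_val, mul_assoc, Units.inv_mul, mul_one, add_sub_cancel] at h2
  exact h2

theorem residues (d : ℕ) (hd : 0 < d) (R : Finset ℕ) (hcop : ∀ p ∈ R, Nat.Coprime p d) :
    haveI : NeZero d := ⟨hd.ne'⟩
    min d (R.card + 1) ≤ (R.powerset.image (fun s => ((∑ x ∈ s, x : ℕ) : ZMod d))).card := by
  haveI : NeZero d := ⟨hd.ne'⟩
  induction R using Finset.induction_on with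
  | empty => simp
  | insert p R hp ih =>
    have ih' := ih (fun q hq => hcop q (Finset.mem_insert_of_mem hq))
    set A := R.powerset.image (fun s => ((∑ x ∈ s, x : ℕ) : ZMod d)) with hA
    set B := (insert p R).powerset.image (fun s => ((∑ x ∈ s, x : ℕ) : ZMod d)) with hB
    have hAB : A ⊆ B := by
      apply Finset.image_subset_image
      exact Finset.powerset_mono.2 (Finset.subset_insert _ _)
    have hne : A.Nonempty := by
      refine ⟨_, Finset.mem_image_of_mem _ (Finset.empty_mem_powerset R)⟩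
    have hunit : IsUnit (p : ZMod d) := by
      rw [ZMod.isUnit_iff_coprime]
      exact hcop p (Finset.mem_insert_self _ _)
    have hadd : ∀ x ∈ A, x + (p : ZMod d) ∈ B := by
      intro x hx
      obtain ⟨s, hs, rfl⟩ := Finset.mem_image.1 hx
      rw [Finset.mem_powerset] at hs
      refine Finset.mem_image.2 ⟨insert p s, ?_, ?_⟩
      · rw [Finset.mem_powerset]
        exact Finset.insert_subset_insert _ hs
      · rw [Finset.sum_insert (fun h => hp (hs h))]
        push_cast
        ring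
    rw [Finset.card_insert_of_notMem hp]
    by_cases hAu : A = Finset.univ
    · have : B = Finset.univ := Finset.eq_univ_iff_forall.2 fun x => hAB (hAu ▸ Finset.mem_univ x)
      rw [this, Finset.card_univ, ZMod.card]
      exact min_le_left _ _
    · have h1 : ¬ ∀ x ∈ A, x + (p : ZMod d) ∈ A := fun h => hAu (zmod_closed hne hunit h)
      push Not at h1
      obtain ⟨x, hx, hxA⟩ := h1
      have h2 : A ⊂ B := by
        refine Finset.ssubset_iff_subset_ne.2 ⟨hAB, fun h => hxA ?_⟩
        rw [h]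
        exact hadd x hx
      have h3 := Finset.card_lt_card h2
      omega

theorem residues' (d : ℕ) (hd : 0 < d) (R : Finset ℕ) (hcop : ∀ p ∈ R, Nat.Coprime p d)
    (hcard : d ≤ R.card) (n : ℕ) : ∃ s ⊆ R, ∑ x ∈ s, x ≡ n [MOD d] := by
  haveI : NeZero d := ⟨hd.ne'⟩
  have h1 := residues d hd R hcop
  have h2 : (R.powerset.image (fun s => ((∑ x ∈ s, x : ℕ) : ZMod d))) = Finset.univ := by
    rw [← Finset.card_eq_iff_eq_univ, ZMod.card]
    apply le_antisymm
    · calc _ ≤ (Finset.univ : Finset (ZMod d)).card := Finset.card_le_univ _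
        _ = d := by rw [Finset.card_univ, ZMod.card]
    · have : min d (R.card + 1) = d := by omega
      rwa [this] at h1
  have h3 : (n : ZMod d) ∈ (R.powerset.image (fun s => ((∑ x ∈ s, x : ℕ) : ZMod d))) := by
    rw [h2]; exact Finset.mem_univ _
  obtain ⟨s, hs, e⟩ := Finset.mem_image.1 h3
  refine ⟨s, Finset.mem_powerset.1 hs, ?_⟩
  rwa [ZMod.natCast_eq_natCast_iff] at e

end Pool.Agent.K1H93.W
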