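import Mathlib

set_option autoImplicit false

/-! # Numerical inequalities -/

namespace Pool.Agent.K1H93.W

theorem num_aux (n : ℕ) (hn : 20 ≤ n) : 40 * (n + 1) ≤ 2 ^ (n - 2) := by
  induction n, hn using Nat.le_induction with
  | base => norm_num
  | succ n hn ih =>
    have : 2 ^ (n + 1 - 2) = 2 * 2 ^ (n - 2) := by
      rw [← pow_succ']
      congr 1
      omega
    rw [this]
    omega

/-- `i ^ 40 ≤ 2 ^ (i / 4)` for large `i`. -/
theorem big (i : ℕ) (hi : 2 ^ 20 ≤ i) : i ^ 40 ≤ 2 ^ (i / 4) := by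
  set n := Nat.log 2 i with hn
  have hn20 : 20 ≤ n := by
    rw [hn]
    exact (Nat.le_log_iff_pow_le (by norm_num) (by omega)).2 hi
  have h1 : i < 2 ^ (n + 1) := Nat.lt_pow_succ_log_self (by norm_num) i
  have h2 : 2 ^ n ≤ i := Nat.pow_log_le_self 2 (by omega)
  have h3 : 2 ^ (n - 2) ≤ i / 4 := by
    rw [Nat.le_div_iff_mul_le (by norm_num)]
    have : 2 ^ n = 2 ^ (n - 2) * 4 := by
      rw [show (4 : ℕ) = 2 ^ 2 by norm_num, ← pow_add]
      congr 1
      omega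
    omega
  calc i ^ 40 ≤ (2 ^ (n + 1)) ^ 40 := Nat.pow_le_pow_left h1.le _
    _ = 2 ^ (40 * (n + 1)) := by rw [← pow_mul]; congr 1; ring
    _ ≤ 2 ^ (i / 4) := Nat.pow_le_pow_right (by norm_num) ((num_aux n hn20).trans h3)

theorem log_aux (n : ℕ) (hn : 20 ≤ n) : (16 * (n + 5)) ^ 2 ≤ 2 ^ n := by
  induction n, hn using Nat.le_induction with
  | base => norm_num
  | succ n hn ih =>
    rw [pow_succ 2 n]
    nlinarith

/-- `16 (log i + 5) ≤ √i`. -/
theorem log_sq (i : ℕ) (hi : 2 ^ 20 ≤ i) : (16 * (Nat.log 2 i + 5)) ^ 2 ≤ i := by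
  have hn20 : 20 ≤ Nat.log 2 i := (Nat.le_log_iff_pow_le (by norm_num) (by omega)).2 hi
  exact (log_aux _ hn20).trans (Nat.pow_log_le_self 2 (by omega))

end Pool.Agent.K1H93.W
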