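import Pool.Agent.K1H93.W.Base0
import Pool.Agent.K1H93.W.Base1
import Pool.Agent.K1H93.W.Num

set_option autoImplicit false

/-! # The subset sums of a dense dyadic block of primes contain a long interval -/

namespace Pool.Agent.K1H93.W

theorem base_num (i : ℕ) (hi : 2 ^ 20 ≤ i) (h : ℕ) (hh : h = 2 ^ i / i ^ 12) :
    2 ^ (3 * i / 2 + 3) + 8 * i ^ 2 * 2 ^ i ≤ h * h := by
  have hbig := big i hi
  have hi0 : 0 < i := by omega
  have h1 : 2 ^ i < (h + 1) * i ^ 12 := by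
    rw [hh]
    exact Nat.lt_mul_of_div_lt (Nat.lt_succ_self _) (by positivity)
  have hpos : 1 ≤ h := by
    rw [hh]
    rw [Nat.one_le_div_iff (by positivity)]
    calc i ^ 12 ≤ i ^ 40 := Nat.pow_le_pow_right hi0 (by norm_num)
      _ ≤ 2 ^ (i / 4) := hbig
      _ ≤ 2 ^ i := Nat.pow_le_pow_right (by norm_num) (Nat.div_le_self _ _)
  have h2 : 2 ^ i ≤ 2 * h * i ^ 12 := by nlinarith [pow_pos hi0 12]
  have h3 : 2 ^ i * 2 ^ i ≤ 4 * i ^ 24 * (h * h) := by
    calc 2 ^ i * 2 ^ i ≤ (2 * h * i ^ 12) * (2 * h * i ^ 12) := Nat.mul_le_mul h2 h2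
      _ = 4 * i ^ 24 * (h * h) := by ring
  have h4 : 4 * i ^ 24 * (2 ^ (3 * i / 2 + 3) + 8 * i ^ 2 * 2 ^ i) ≤ 2 ^ i * 2 ^ i := by
    have e1 : 2 ^ i ≤ 2 ^ (3 * i / 2) := Nat.pow_le_pow_right (by norm_num) (by omega)
    calc 4 * i ^ 24 * (2 ^ (3 * i / 2 + 3) + 8 * i ^ 2 * 2 ^ i)
        ≤ 4 * i ^ 24 * (2 ^ (3 * i / 2) * 8 + 8 * i ^ 2 * 2 ^ (3 * i / 2)) := by
          rw [pow_add]
          gcongr
          norm_num
      _ = (32 * i ^ 24 + 32 * i ^ 26) * 2 ^ (3 * i / 2) := by ring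
      _ ≤ (i ^ 40) * 2 ^ (3 * i / 2) := by
          apply Nat.mul_le_mul_right
          have e2 : i ^ 24 ≤ i ^ 26 := Nat.pow_le_pow_right hi0 (by norm_num)
          have e3 : i ^ 40 = i ^ 26 * i ^ 14 := by ring
          have e4 : 64 ≤ i ^ 14 := by
            calc 64 ≤ i := by omega
              _ = i ^ 1 := (pow_one i).symm
              _ ≤ i ^ 14 := Nat.pow_le_pow_right hi0 (by norm_num)
          calc 32 * i ^ 24 + 32 * i ^ 26 ≤ i ^ 26 * 64 := by omega
            _ ≤ i ^ 26 * i ^ 14 := Nat.mul_le_mul_left _ e4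
            _ = i ^ 40 := e3.symm
      _ ≤ 2 ^ (i / 4) * 2 ^ (3 * i / 2) := Nat.mul_le_mul_right _ hbig
      _ ≤ 2 ^ i * 2 ^ i := by
          rw [← pow_add, ← pow_add]
          exact Nat.pow_le_pow_right (by norm_num) (by omega)
  exact Nat.le_of_mul_le_mul_left (h4.trans h3) (by positivity)

theorem base (i : ℕ) (hi : 2 ^ 20 ≤ i) (P : Finset ℕ) (hprime : ∀ p ∈ P, p.Prime)
    (hP : ∀ p ∈ P, 2 ^ i ≤ p ∧ p < 2 ^ (i + 1)) (hcard : 2 ^ i ≤ P.card * i ^ 2) :
    ∃ A ≤ 2 ^ (2 * i + 1), ∀ n, A ≤ n → n ≤ A + 2 ^ (3 * i / 2 + 3) → SS P n := by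
  classical
  have hbig := big i hi
  have hi0 : 0 < i := by omega
  set y := 2 ^ i with hy
  have hP' : ∀ p ∈ P, y ≤ p ∧ p < 2 * y := by
    intro p hp
    have := hP p hp
    rw [pow_succ] at this
    omega
  have hy40 : i ^ 40 ≤ y := hbig.trans (Nat.pow_le_pow_right (by norm_num) (Nat.div_le_self _ _))
  -- level 0
  obtain ⟨d, hd1, hdG, X, hXP, hXdP, hXX, hPX⟩ := level0 P y (4 * i ^ 2) (y / (4 * i ^ 2) + 1)
    (by nlinarith) (by
      have := Nat.lt_mul_of_div_lt (Nat.lt_succ_self (y / (4 * i ^ 2))) (show 0 < 4 * i ^ 2 by positivity)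
      exact this.le) hP'
  set N0 := y / i ^ 7 with hN0
  set h := y / i ^ 12 with hh
  have hN0y : N0 * i ^ 7 ≤ y := Nat.div_mul_le_self _ _
  have hhy : h * i ^ 12 ≤ y := Nat.div_mul_le_self _ _
  have hyN0 : y < (N0 + 1) * i ^ 7 := Nat.lt_mul_of_div_lt (Nat.lt_succ_self _) (by positivity)
  have hN0pos : 1 ≤ N0 := by
    rw [hN0, Nat.one_le_div_iff (by positivity)]
    exact (Nat.pow_le_pow_right hi0 (by norm_num)).trans hy40
  have hipow : ∀ n, 1 ≤ n → 2 ^ 20 ≤ i ^ n := by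
    intro n hn
    calc 2 ^ 20 ≤ i := hi
      _ = i ^ 1 := (pow_one i).symm
      _ ≤ i ^ n := Nat.pow_le_pow_right hi0 hn
  have hXc : N0 ≤ X.card := by
    by_contra hlt
    rw [not_le] at hlt
    have h1 : P.card * i ^ 2 ≤ (y / (4 * i ^ 2) + 1 + N0 * (4 * i ^ 2) ^ 2) * i ^ 2 := by
      apply Nat.mul_le_mul_right
      refine hPX.trans ?_
      gcongr
    have h2 : (y / (4 * i ^ 2)) * (4 * i ^ 2) ≤ y := Nat.div_mul_le_self _ _
    have h3 : 16 * (N0 * i ^ 6) * 2 ^ 20 ≤ 16 * y := by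
      calc 16 * (N0 * i ^ 6) * 2 ^ 20 ≤ 16 * (N0 * i ^ 6) * i := Nat.mul_le_mul_left _ hi
        _ = 16 * (N0 * i ^ 7) := by ring
        _ ≤ 16 * y := Nat.mul_le_mul_left _ hN0y
    have h4 : (y / (4 * i ^ 2) + 1 + N0 * (4 * i ^ 2) ^ 2) * i ^ 2 =
        (y / (4 * i ^ 2)) * i ^ 2 + i ^ 2 + 16 * (N0 * i ^ 6) := by ring
    have h5 : 8 * i ^ 2 ≤ y := by
      calc 8 * i ^ 2 ≤ i * i ^ 2 := Nat.mul_le_mul_right _ (by omega)
        _ = i ^ 3 := by ring
        _ ≤ i ^ 40 := Nat.pow_le_pow_right hi0 (by norm_num)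
        _ ≤ y := hy40
    have h6 : (y / (4 * i ^ 2)) * (4 * i ^ 2) = 4 * ((y / (4 * i ^ 2)) * i ^ 2) := by ring
    have h7 : 1 ≤ y := Nat.one_le_two_pow
    omega
  obtain ⟨X0, hX0X, hX0c⟩ := Finset.exists_subset_card_eq hXc
  set U0 := X0 ∪ X0.image (· + d) with hU0
  have hU0P : U0 ⊆ P := Finset.union_subset (hX0X.trans hXP)
    ((Finset.image_subset_image hX0X).trans hXdP)
  have hU0c : U0.card ≤ 2 * N0 := by
    calc U0.card ≤ X0.card + (X0.image (· + d)).card := Finset.card_union_le _ _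
      _ ≤ X0.card + X0.card := by
          exact Nat.add_le_add_left (Finset.card_image_le (s := X0) (f := fun x => x + d)) _
      _ = 2 * N0 := by rw [hX0c]; ring
  set P1 := P \ U0 with hP1
  have hP1c : P.card ≤ P1.card + 2 * N0 := by
    have := Finset.card_sdiff_add_card_eq_card hU0P
    rw [← hP1] at this
    omega
  -- the cell
  set W := d * N0 with hW
  have hWpos : 0 < W := Nat.mul_pos hd1 hN0pos
  have hcells : (y / W + 1) * d ≤ 3 * i ^ 7 := by
    have h1 : y / W * d ≤ y / N0 := by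
      rw [Nat.le_div_iff_mul_le hN0pos]
      calc y / W * d * N0 = y / W * W := by rw [hW]; ring
        _ ≤ y := Nat.div_mul_le_self _ _
    have h2 : y / N0 ≤ 2 * i ^ 7 := by
      apply Nat.div_le_of_le_mul
      nlinarith [pow_pos hi0 7]
    have h3 : d ≤ i ^ 7 := by
      calc d ≤ 4 * i ^ 2 := hdG.le
        _ ≤ i * i ^ 2 := Nat.mul_le_mul_right _ (by omega)
        _ = i ^ 3 := by ring
        _ ≤ i ^ 7 := Nat.pow_le_pow_right hi0 (by norm_num)
    calc (y / W + 1) * d = y / W * d + d := by ring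
      _ ≤ 3 * i ^ 7 := by omega
  have hPbig : 6 * (i ^ 7 * h) + 2 * N0 + 2 * h + 4 * i ^ 2 ≤ P.card := by
    have h1 : (6 * (i ^ 7 * h) + 2 * N0 + 2 * h + 4 * i ^ 2) * i ^ 2 ≤ P.card * i ^ 2 := by
      refine le_trans ?_ hcard
      have e1 : 8 * (i ^ 9 * h) * 2 ^ 20 ≤ 8 * y := by
        calc 8 * (i ^ 9 * h) * 2 ^ 20 ≤ 8 * (i ^ 9 * h) * i ^ 3 :=
              Nat.mul_le_mul_left _ (hipow 3 (by norm_num))
          _ = 8 * (h * i ^ 12) := by ring
          _ ≤ 8 * y := Nat.mul_le_mul_left _ hhy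
      have e2 : 2 * (N0 * i ^ 2) * 2 ^ 20 ≤ 2 * y := by
        calc 2 * (N0 * i ^ 2) * 2 ^ 20 ≤ 2 * (N0 * i ^ 2) * i ^ 5 :=
              Nat.mul_le_mul_left _ (hipow 5 (by norm_num))
          _ = 2 * (N0 * i ^ 7) := by ring
          _ ≤ 2 * y := Nat.mul_le_mul_left _ hN0y
      have e3 : 4 * i ^ 4 * 2 ^ 20 ≤ 4 * y := by
        calc 4 * i ^ 4 * 2 ^ 20 ≤ 4 * i ^ 4 * i ^ 36 :=
              Nat.mul_le_mul_left _ (hipow 36 (by norm_num))
          _ = 4 * i ^ 40 := by ring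
          _ ≤ 4 * y := Nat.mul_le_mul_left _ hy40
      have e4 : (6 * (i ^ 7 * h) + 2 * N0 + 2 * h + 4 * i ^ 2) * i ^ 2 ≤
          8 * (i ^ 9 * h) + 2 * (N0 * i ^ 2) + 4 * i ^ 4 := by
        have : i ^ 2 * h ≤ i ^ 9 * h := Nat.mul_le_mul_right _ (Nat.pow_le_pow_right hi0 (by norm_num))
        nlinarith
      omega
    exact Nat.le_of_mul_le_mul_right h1 (by positivity)
  obtain ⟨c, hc, hccard⟩ := Finset.exists_le_card_fiber_of_mul_le_card_of_maps_to
    (s := P1) (t := (Finset.range (y / W + 1)) ×ˢ (Finset.range d))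
    (f := fun p => ((p - y) / W, p % d)) (n := 2 * h)
    (by
      intro p hp
      have h1 := hP' p (Finset.sdiff_subset hp)
      rw [Finset.mem_product, Finset.mem_range, Finset.mem_range]
      refine ⟨?_, Nat.mod_lt _ hd1⟩
      simp only
      exact Nat.lt_succ_of_le (Nat.div_le_div_right (by omega)))
    ⟨(0, 0), by simp; omega⟩
    (by
      rw [Finset.card_product, Finset.card_range, Finset.card_range]
      calc (y / W + 1) * d * (2 * h) ≤ 3 * i ^ 7 * (2 * h) := Nat.mul_le_mul_right _ hcells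
        _ = 6 * (i ^ 7 * h) := by ring
        _ ≤ P1.card := by omega)
  set C := P1.filter (fun p => ((p - y) / W, p % d) = c) with hC
  have hCP1 : C ⊆ P1 := Finset.filter_subset _ _
  have hCmem : ∀ p ∈ C, (p - y) / W = c.1 ∧ p % d = c.2 := by
    intro p hp
    have := (Finset.mem_filter.1 hp).2
    rw [← this]
    exact ⟨rfl, rfl⟩
  obtain ⟨a, b, hainj, hbinj, hab, haC, hbC, habd, habW, hdvd⟩ := level1 C d W h
    (by
      intro p hp q hq
      show p % d = q % d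
      rw [(hCmem p hp).2, (hCmem q hq).2])
    (by
      intro p hp q hq
      have h1 := (hCmem p hp).1
      have h2 := (hCmem q hq).1
      have h3 := Nat.div_add_mod (p - y) W
      have h4 := Nat.div_add_mod (q - y) W
      have h5 := Nat.mod_lt (p - y) hWpos
      have h6 := (hP' p (Finset.sdiff_subset (hCP1 hp))).1
      have h7 := (hP' q (Finset.sdiff_subset (hCP1 hq))).1
      rw [h1] at h3
      rw [h2] at h4
      omega)
    hccard
  set U1 := Finset.univ.image a ∪ Finset.univ.image b with hU1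
  have hU1P1 : U1 ⊆ P1 := by
    intro x hx
    rw [hU1, Finset.mem_union, Finset.mem_image, Finset.mem_image] at hx
    rcases hx with ⟨t, _, rfl⟩ | ⟨t, _, rfl⟩
    · exact hCP1 (haC t)
    · exact hCP1 (hbC t)
  have hU1c : U1.card ≤ 2 * h := by
    calc U1.card ≤ (Finset.univ.image a).card + (Finset.univ.image b).card :=
          Finset.card_union_le _ _
      _ ≤ (Finset.univ : Finset (Fin h)).card + (Finset.univ : Finset (Fin h)).card := by
          gcongr <;> exact Finset.card_image_le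
      _ = 2 * h := by simp; ring
  set P2 := P1 \ U1 with hP2
  have hP2c : d ≤ P2.card := by
    have := Finset.card_sdiff_add_card_eq_card hU1P1
    rw [← hP2] at this
    omega
  obtain ⟨R, hRP2, hRc⟩ := Finset.exists_subset_card_eq hP2c
  have hRP : R ⊆ P := hRP2.trans (Finset.sdiff_subset.trans Finset.sdiff_subset)
  have hRcop : ∀ p ∈ R, Nat.Coprime p d := by
    intro p hp
    have h1 := hprime p (hRP hp)
    rw [Nat.Prime.coprime_iff_not_dvd h1]
    intro h2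
    have h3 := Nat.le_of_dvd hd1 h2
    have h4 := (hP' p (hRP hp)).1
    have h5 : 4 * i ^ 2 ≤ y := by
      calc 4 * i ^ 2 ≤ i * i ^ 2 := Nat.mul_le_mul_right _ (by omega)
        _ = i ^ 3 := by ring
        _ ≤ i ^ 40 := Nat.pow_le_pow_right hi0 (by norm_num)
        _ ≤ y := hy40
    omega
  -- sums
  have hR2 : ∑ p ∈ R, p ≤ 8 * i ^ 2 * y := by
    calc ∑ p ∈ R, p ≤ ∑ p ∈ R, 2 * y := Finset.sum_le_sum fun p hp => (hP' p (hRP hp)).2.le
      _ = d * (2 * y) := by rw [Finset.sum_const, hRc, smul_eq_mul]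
      _ ≤ (4 * i ^ 2) * (2 * y) := Nat.mul_le_mul_right _ hdG.le
      _ = 8 * i ^ 2 * y := by ring
  have hDsum : h * h ≤ ∑ t : Fin h, (b t - a t) := by
    calc h * h = ∑ t : Fin h, h := by simp
      _ ≤ ∑ t : Fin h, (b t - a t) := by
          apply Finset.sum_le_sum
          intro t _
          have h1 := habd t
          have h2 : h ≤ d * h := Nat.le_mul_of_pos_left _ hd1
          omega
  have hnum := base_num i hi h rfl
  rw [← hy] at hnum
  have haP : ∀ t, a t < 2 * y := fun t => (hP' _ (Finset.sdiff_subset (hCP1 (haC t)))).2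
  have hX0s : ∑ x ∈ X0, x ≤ N0 * (2 * y) := by
    calc ∑ x ∈ X0, x ≤ ∑ x ∈ X0, 2 * y :=
          Finset.sum_le_sum fun x hx => (hP' x (hXP (hX0X hx))).2.le
      _ = N0 * (2 * y) := by rw [Finset.sum_const, hX0c, smul_eq_mul]
  have has : ∑ t : Fin h, a t ≤ h * (2 * y) := by
    calc ∑ t : Fin h, a t ≤ ∑ t : Fin h, 2 * y := Finset.sum_le_sum fun t _ => (haP t).le
      _ = h * (2 * y) := by simp
  refine ⟨∑ x ∈ X0, x + ∑ t : Fin h, a t + ∑ p ∈ R, p, ?_, ?_⟩
  · -- size of `A`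
    have h1 : N0 + h + 4 * i ^ 2 ≤ y := by
      have e1 : N0 * 2 ^ 20 ≤ y := (Nat.mul_le_mul_left _ (hipow 7 (by norm_num))).trans hN0y
      have e2 : h * 2 ^ 20 ≤ y := (Nat.mul_le_mul_left _ (hipow 12 (by norm_num))).trans hhy
      have e3 : 4 * i ^ 2 * 2 ^ 20 ≤ 4 * y := by
        calc 4 * i ^ 2 * 2 ^ 20 ≤ 4 * i ^ 2 * i ^ 38 :=
              Nat.mul_le_mul_left _ (hipow 38 (by norm_num))
          _ = 4 * i ^ 40 := by ring
          _ ≤ 4 * y := Nat.mul_le_mul_left _ hy40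
      omega
    calc ∑ x ∈ X0, x + ∑ t : Fin h, a t + ∑ p ∈ R, p
        ≤ N0 * (2 * y) + h * (2 * y) + 8 * i ^ 2 * y := by omega
      _ = (N0 + h + 4 * i ^ 2) * (2 * y) := by ring
      _ ≤ y * (2 * y) := Nat.mul_le_mul_right _ h1
      _ = 2 ^ (2 * i + 1) := by rw [hy]; ring
  · intro n hn1 hn2
    obtain ⟨s, hsR, hs⟩ := residues' d hd1 R hRcop hRc.ge (n - ∑ x ∈ X0, x - ∑ t : Fin h, a t)
    have hsle : ∑ x ∈ s, x ≤ ∑ x ∈ R, x := Finset.sum_le_sum_of_subset hsR
    have hle : ∑ x ∈ s, x ≤ n - ∑ x ∈ X0, x - ∑ t : Fin h, a t := by omega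
    have hdv : d ∣ n - ∑ x ∈ X0, x - ∑ t : Fin h, a t - ∑ x ∈ s, x :=
      (Nat.modEq_iff_dvd' hle).1 hs
    obtain ⟨c', hc', J, hJ, hJe⟩ := mult_sums d N0 (fun t : Fin h => b t - a t) Finset.univ
      (fun t _ => hdvd t) (fun t _ => by
        have := habW t
        omega) _ hdv (by omega)
    rw [← hX0c] at hc'
    obtain ⟨Xc, hXc1, hXc2⟩ := Finset.exists_subset_card_eq hc'
    have s1 := SS_pairs X0 id (· + d) (fun x _ y _ h => h) (fun x _ y _ h => by simpa using h)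
      (by
        intro x hx z hz h1
        have h2 : x ∈ X := hX0X hx
        have h3 : x ∈ X.image (· + d) := Finset.mem_image.2 ⟨z, hX0X hz, h1.symm⟩
        exact (Finset.disjoint_left.1 hXX) h2 h3)
      (fun t _ => Nat.le_add_right _ _) Xc hXc1
    have s2 := SS_pairs (Finset.univ : Finset (Fin h)) a b hainj.injOn hbinj.injOn
      (fun s _ t _ => hab s t) (fun t _ => by have := habd t; omega) J hJ
    have s3 : SS R (∑ x ∈ s, x) := ⟨s, hsR, rfl⟩
    rw [Finset.image_id, ← hU0] at s1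
    rw [← hU1] at s2
    have hd01 : Disjoint U0 U1 := by
      rw [Finset.disjoint_right]
      intro x hx
      exact (Finset.mem_sdiff.1 (hU1P1 hx)).2
    have hd2 : Disjoint (U0 ∪ U1) R := by
      rw [Finset.disjoint_right]
      intro x hx
      have h1 := Finset.mem_sdiff.1 (hRP2 hx)
      have h2 := Finset.mem_sdiff.1 h1.1
      rw [Finset.mem_union]
      rintro (h3 | h3)
      · exact h2.2 h3
      · exact h1.2 h3
    have s4 := (s1.add hd01 s2).add hd2 s3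
    have hsub : U0 ∪ U1 ∪ R ⊆ P := by
      apply Finset.union_subset (Finset.union_subset hU0P (hU1P1.trans Finset.sdiff_subset)) hRP
    have e1 : ∑ t ∈ Xc, (t + d - id t) = d * c' := by
      rw [← hXc2, Finset.sum_congr rfl (fun t _ => show t + d - id t = d by simp), Finset.sum_const,
        smul_eq_mul, mul_comm]
    have e2 : ∑ t ∈ X0, id t = ∑ x ∈ X0, x := rfl
    rw [e1, e2] at s4
    have e3 : ∑ x ∈ X0, x + d * c' + (∑ t : Fin h, a t + ∑ t ∈ J, (b t - a t)) + ∑ x ∈ s, x = n := by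
      omega
    rw [e3] at s4
    exact s4.mono hsub

end Pool.Agent.K1H93.W
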