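import Pool.Agent.K1H93.W.CaseII

set_option autoImplicit false

/-! # Sets missing at least half of the block -/

namespace Pool.Agent.K1H93.W

namespace Ctx

variable {Q : Finset ℕ} {i j : ℕ} (c : Ctx Q i j)

include c

/-- families of products of `r` primes of the block, `r ≥ 2`, slightly smaller than `w` -/
theorem alpha {U V0 : Finset ℕ} (hU : U ⊆ Pb Q i) (hUc : (Pb Q i).card ≤ 2 * U.card)
    (hV0 : ∀ q ∈ V0, 0 < q) (hd : Disjoint V0 (Pb Q i)) {w : ℝ} (hw1 : (2 : ℝ) ^ (2 * i + 2) ≤ w)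
    (hw2 : w < 2 ^ (((Pb Q i).card / 16 - 1) * i)) :
    ∃ r, 2 ≤ r ∧ (∀ G ∈ fam V0 U r, (pr G : ℝ) < pr V0 * w) ∧
      (pr V0 : ℝ) * w ≤ ∑ G ∈ fam V0 U r, (pr G : ℝ) := by
  have hR := c.R_ge
  set k := (Pb Q i).card with hk
  have hi0 : 0 < i := by have := c.hi; omega
  have hw0 : 1 ≤ w := le_trans (one_le_pow₀ (by norm_num)) hw1
  obtain ⟨n, hn1, hn2⟩ := near (i + 1) (by omega) w hw0
  have hn0 : 2 ≤ n := by
    by_contra h
    have h1 : (2 : ℝ) ^ ((i + 1) * (n + 1)) ≤ 2 ^ (2 * i + 2) := by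
      apply pow_le_pow_right₀ (by norm_num)
      have : n + 1 ≤ 2 := by omega
      calc (i + 1) * (n + 1) ≤ (i + 1) * 2 := Nat.mul_le_mul_left _ this
        _ = 2 * i + 2 := by ring
    linarith
  have hnR : n ≤ k / 16 := by
    have h1 : (2 : ℝ) ^ ((i + 1) * n) < 2 ^ ((k / 16 - 1) * i) := lt_of_le_of_lt hn1 hw2
    have h2 : (i + 1) * n < (k / 16 - 1) * i := (pow_lt_pow_iff_right₀ (by norm_num)).1 h1
    have h3 : n < k / 16 - 1 := by
      have h4 : i * n ≤ (i + 1) * n := Nat.mul_le_mul_right _ (Nat.le_succ _)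
      rw [mul_comm i n] at h4
      exact Nat.lt_of_mul_lt_mul_right (lt_of_le_of_lt h4 h2)
    omega
  have hV0pos : (0 : ℝ) < pr V0 := by exact_mod_cast pr_pos hV0
  have hdU : Disjoint V0 U := Finset.disjoint_of_subset_right hU hd
  refine ⟨n, hn0, ?_, ?_⟩
  · intro G hG
    obtain ⟨V, hV, hVc, rfl⟩ := mem_fam hG
    rw [fam_pr hdU hV]
    push_cast
    have h1 := pr_block_lt (hV.trans hU) hVc (by omega)
    have h2 : (pr V : ℝ) < 2 ^ ((i + 1) * n) := by exact_mod_cast h1
    exact mul_lt_mul_of_pos_left (lt_of_lt_of_le h2 hn1) hV0pos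
  · have h0 : ((pr V0 * (U.card.choose n * 2 ^ (i * n)) : ℕ) : ℝ) ≤
        ∑ G ∈ fam V0 U n, (pr G : ℝ) := by
      exact_mod_cast fam_sum hdU hU
    refine le_trans ?_ h0
    have h1 : 2 ^ (i + n + 1) ≤ U.card.choose n := choose_big i c.hi c.dense_i hUc hn0 hnR
    have h2 : (2 : ℝ) ^ (i + n + 1) ≤ (U.card.choose n : ℝ) := by exact_mod_cast h1
    push_cast
    apply mul_le_mul_of_nonneg_left _ hV0pos.le
    calc w ≤ 2 ^ ((i + 1) * (n + 1)) := hn2.le
      _ = 2 ^ (i + n + 1) * 2 ^ (i * n) := by rw [← pow_add]; congr 1; ring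
      _ ≤ _ := by gcongr

/-- **Case I**: `S` misses at least half of the block. -/
theorem caseI {S : Finset ℕ} (hS : S ⊆ Q) (hL : 2 ^ (j + 2) ≤ pr S)
    (hE : (Pb Q i).card ≤ 2 * (Pb Q i \ S).card) : pr S ≤ lowSum Q i S := by
  have hR := c.R_ge
  set k := (Pb Q i).card with hk
  have hi0 : 0 < i := by have := c.hi; omega
  have hbig := big i c.hi
  have hij := c.hij
  have hji := c.hji
  have hUsub : Pb Q i \ S ⊆ Pb Q i := Finset.sdiff_subset
  have hUout : Pb Q i \ S ⊆ Q \ S := Finset.sdiff_subset_sdiff (Pb_sub _ _) subset_rfl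
  by_cases hSj : ∃ q ∈ S, q ∈ Pb Q j
  · -- `S` contains a prime of the block `j`
    obtain ⟨q, hq, hqj⟩ := hSj
    have hqm := Pb_mem hqj
    apply famI c.pos hS (Finset.singleton_subset_iff.2 hq) (fam ∅ (Pb Q i \ S) 1)
    · intro V hV
      obtain ⟨W, hW, hWc, rfl⟩ := mem_fam hV
      rw [Finset.empty_union]
      refine ⟨hW.trans hUout, ?_, ?_⟩
      · rw [pr_singleton]
        have h1 := pr_block_lt (hW.trans hUsub) hWc (by norm_num)
        rw [mul_one] at h1
        have h2 : 2 ^ (i + 1) ≤ 2 ^ j := Nat.pow_le_pow_right (by norm_num) (by omega)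
        omega
      · have h1 := pr_block_ge (hW.trans hUsub) hWc
        rw [mul_one] at h1
        have h2 : 2 ≤ pr (S \ {q}) := by
          have h3 : pr (S \ {q}) * q = pr S := by
            have := pr_sdiff (Finset.singleton_subset_iff.2 hq)
            rwa [pr_singleton] at this
          have h4 : 2 ^ (j + 2) = 2 * 2 ^ (j + 1) := by rw [pow_succ' 2 (j + 1)]
          by_contra h
          have h5 : pr (S \ {q}) * q ≤ 1 * q := Nat.mul_le_mul_right _ (by omega)
          omega
        calc 2 ^ (i + 1) = 2 * 2 ^ i := pow_succ' _ _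
          _ ≤ pr (S \ {q}) * pr W := Nat.mul_le_mul h2 h1
    · rw [pr_singleton]
      have h1 := fam_sum (Q := Q) (V0 := ∅) (E := Pb Q i \ S) (i := i) (r := 1)
        (Finset.disjoint_empty_left _) hUsub
      rw [pr_empty, Nat.choose_one_right, mul_one, one_mul] at h1
      refine le_trans ?_ h1
      have h2 : 2 ^ (j + 2) * i ^ 2 ≤ (2 * ((Pb Q i \ S).card * 2 ^ i)) * i ^ 2 := by
        calc 2 ^ (j + 2) * i ^ 2 ≤ 2 ^ i * 2 ^ i := sq_big i j c.hi hji
          _ ≤ (k * i ^ 2) * 2 ^ i := Nat.mul_le_mul_right _ c.dense_i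
          _ ≤ ((2 * (Pb Q i \ S).card) * i ^ 2) * 2 ^ i := by gcongr
          _ = (2 * ((Pb Q i \ S).card * 2 ^ i)) * i ^ 2 := by ring
      have h3 := Nat.le_of_mul_le_mul_right h2 (by positivity)
      have h4 : 2 ^ (j + 2) = 2 * 2 ^ (j + 1) := by rw [pow_succ' 2 (j + 1)]
      omega
  · -- no prime of the block `j`
    have hjout : Pb Q j ⊆ Q \ S := by
      intro q hq
      rw [Finset.mem_sdiff]
      exact ⟨Pb_sub _ _ hq, fun h => hSj ⟨q, h, hq⟩⟩
    have hSpos : ∀ q ∈ S, 0 < q := fun q hq => c.pos q (hS hq)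
    obtain ⟨q, hq, hq1, hq2⟩ := prefix_prod S (2 ^ (j + 1)) (Nat.one_lt_two_pow (by omega))
      (le_trans (Nat.pow_le_pow_right (by norm_num) (by omega)) hL)
    set X0 := S.filter (fun x => x < q) with hX0
    have hX0S : X0 ⊆ S := Finset.filter_subset _ _
    have hqX0 : q ∉ X0 := by simp [hX0]
    set Sg := insert q X0 with hSg
    have hSgS : Sg ⊆ S := Finset.insert_subset hq hX0S
    have hprSg : pr Sg = q * pr X0 := pr_insert hqX0
    have hsd : 1 ≤ pr (S \ Sg) := pr_pos fun x hx => hSpos x (Finset.sdiff_subset hx)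
    rcases Nat.lt_or_ge (q * pr X0) (2 ^ ((k / 16 - 1) * i)) with hy | hy
    · rcases Nat.lt_or_ge (pr Sg) (2 ^ (2 * i + 2)) with hy2 | hy2
      · -- one prime of the block `j`
        apply famI c.pos hS hSgS (fam ∅ (Pb Q j) 1)
        · intro V hV
          obtain ⟨W, hW, hWc, rfl⟩ := mem_fam hV
          rw [Finset.empty_union]
          have h1 := pr_block_ge hW hWc
          have h2 := pr_block_lt hW hWc (by norm_num)
          rw [mul_one] at h1 h2
          refine ⟨hW.trans hjout, by omega, ?_⟩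
          have h3 : 2 ^ (i + 1) ≤ 2 ^ j := Nat.pow_le_pow_right (by norm_num) (by omega)
          calc 2 ^ (i + 1) ≤ 1 * pr W := by omega
            _ ≤ pr (S \ Sg) * pr W := Nat.mul_le_mul_right _ hsd
        · have h1 := fam_sum (Q := Q) (V0 := ∅) (E := Pb Q j) (i := j) (r := 1)
            (Finset.disjoint_empty_left _) subset_rfl
          rw [pr_empty, Nat.choose_one_right, mul_one, one_mul] at h1
          refine le_trans ?_ h1
          have h2 : 2 ^ (2 * i + 2) * j ^ 2 ≤ ((Pb Q j).card * 2 ^ j) * j ^ 2 := by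
            calc 2 ^ (2 * i + 2) * j ^ 2 ≤ 2 ^ j * 2 ^ j := j_big i j c.hi hij hji
              _ ≤ ((Pb Q j).card * j ^ 2) * 2 ^ j := Nat.mul_le_mul_right _ c.dense_j
              _ = ((Pb Q j).card * 2 ^ j) * j ^ 2 := by ring
          have hj0 : 0 < j := by omega
          have h3 := Nat.le_of_mul_le_mul_right h2 (by positivity)
          omega
      · -- several primes
        obtain ⟨r, hr2, hr3, hr4⟩ := c.alpha (V0 := ∅) hUsub hE (by simp)
          (Finset.disjoint_empty_left _) (w := (pr Sg : ℝ)) (by exact_mod_cast hy2)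
          (by rw [hprSg]; exact_mod_cast hy)
        rw [pr_empty, Nat.cast_one, one_mul] at hr3 hr4
        apply famI c.pos hS hSgS (fam ∅ (Pb Q i \ S) r) _ (by exact_mod_cast hr4)
        intro G hG
        have h0 := hr3 G hG
        obtain ⟨V, hV, hVc, rfl⟩ := mem_fam hG
        rw [Finset.empty_union] at h0 ⊢
        refine ⟨hV.trans hUout, by exact_mod_cast h0, ?_⟩
        have h1 := pr_block_ge (hV.trans hUsub) hVc
        have h2 : 2 ^ (i + 1) ≤ 2 ^ (i * r) := by
          apply Nat.pow_le_pow_right (by norm_num)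
          calc i + 1 ≤ i * 2 := by omega
            _ ≤ i * r := Nat.mul_le_mul_left _ hr2
        calc 2 ^ (i + 1) ≤ 1 * pr V := by omega
          _ ≤ pr (S \ Sg) * pr V := Nat.mul_le_mul_right _ hsd
    · -- a large prime
      have hqbig : 2 ^ ((k / 16 - 3) * i) ≤ q := by
        have h1 : 2 ^ ((k / 16 - 3) * i) * 2 ^ (j + 1) ≤ q * 2 ^ (j + 1) := by
          calc 2 ^ ((k / 16 - 3) * i) * 2 ^ (j + 1) = 2 ^ ((k / 16 - 3) * i + (j + 1)) :=
                (pow_add _ _ _).symm
            _ ≤ 2 ^ ((k / 16 - 1) * i) := by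
                apply Nat.pow_le_pow_right (by norm_num)
                have : k / 16 - 1 = (k / 16 - 3) + 2 := by omega
                rw [this, add_mul]
                omega
            _ ≤ q * pr X0 := hy
            _ ≤ q * 2 ^ (j + 1) := Nat.mul_le_mul_left _ hq1.le
        exact Nat.le_of_mul_le_mul_right h1 (by positivity)
      have hqQ : q ∈ Q := hS hq
      have hpow : ∀ m, m ≤ k / 16 - 3 → 2 ^ (m * i) ≤ q := fun m hm =>
        le_trans (Nat.pow_le_pow_right (by norm_num) (Nat.mul_le_mul_right _ hm)) hqbig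
      have hqi : (2 : ℝ) ^ (2 * i + 2) ≤ q := by
        have h1 := hpow 3 (by omega)
        have h2 : 2 ^ (2 * i + 2) ≤ q :=
          le_trans (Nat.pow_le_pow_right (by norm_num) (by omega)) h1
        exact_mod_cast h2
      obtain ⟨V0, hV0, hz1, hz2⟩ := c.wa hqQ (hX0S.trans hS) hq1.le
        (by rw [← hk]; exact hpow _ (by omega)) (z := (q : ℝ) / 2 ^ (2 * i + 2))
        (by rwa [le_div_iff₀ (by positivity), one_mul])
        (div_le_self (by positivity) (one_le_pow₀ (by norm_num)))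
      rw [← hk] at hz2
      have hV0Q : V0 ⊆ Q := hV0.trans (Finset.sdiff_subset.trans
        (Finset.sdiff_subset.trans (Finset.filter_subset _ _)))
      have hV0pos : ∀ x ∈ V0, 0 < x := fun x hx => c.pos x (hV0Q hx)
      have hV0out : V0 ⊆ Q \ S := by
        intro x hx
        have h1 := Finset.mem_sdiff.1 (hV0 hx)
        have h2 := Finset.mem_sdiff.1 h1.1
        have h3 := Finset.mem_filter.1 h2.1
        rw [Finset.mem_sdiff]
        exact ⟨h3.1, fun h => h1.2 (Finset.mem_filter.2 ⟨h, h3.2⟩)⟩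
      have hV0P : Disjoint V0 (Pb Q i) := by
        rw [Finset.disjoint_left]
        intro x hx
        exact (Finset.mem_sdiff.1 (Finset.mem_sdiff.1 (hV0 hx)).1).2
      have hprV0 : (0 : ℝ) < pr V0 := by exact_mod_cast pr_pos hV0pos
      set w : ℝ := q / pr V0 with hw
      have hVw : (pr V0 : ℝ) * w = q := by rw [hw]; field_simp
      obtain ⟨r, hr2, hr3, hr4⟩ := c.alpha (V0 := V0) hUsub hE hV0pos hV0P (w := w)
        (by
          rw [hw, le_div_iff₀ hprV0]
          rw [le_div_iff₀ (by positivity)] at hz1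
          linarith)
        (by
          rw [hw, div_lt_iff₀ hprV0, ← hk]
          rw [div_le_iff₀ (by positivity)] at hz2
          have h1 : (2 : ℝ) ^ ((k / 16 - 4) * i) * 2 ^ (2 * i + 2) < 2 ^ ((k / 16 - 1) * i) := by
            rw [← pow_add]
            apply pow_lt_pow_right₀ (by norm_num)
            have h3 : k / 16 - 1 = (k / 16 - 4) + 3 := by omega
            have h4 := c.hi
            rw [h3, add_mul]
            omega
          calc (q : ℝ) ≤ 2 ^ ((k / 16 - 4) * i) * pr V0 * 2 ^ (2 * i + 2) := hz2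
            _ = (2 ^ ((k / 16 - 4) * i) * 2 ^ (2 * i + 2)) * pr V0 := by ring
            _ < 2 ^ ((k / 16 - 1) * i) * pr V0 := by gcongr)
      rw [hVw] at hr3 hr4
      apply famI c.pos hS (Finset.singleton_subset_iff.2 hq : ({q} : Finset ℕ) ⊆ S)
        (fam V0 (Pb Q i \ S) r)
      · intro G hG
        have h0 := hr3 G hG
        obtain ⟨V, hV, hVc, rfl⟩ := mem_fam hG
        have hdV : Disjoint V0 V :=
          Finset.disjoint_of_subset_right (hV.trans hUsub) hV0P
        refine ⟨Finset.union_subset hV0out (hV.trans hUout), ?_, ?_⟩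
        · rw [pr_singleton]
          exact_mod_cast h0
        · have h1 : 1 ≤ pr (S \ {q}) :=
            pr_pos fun q hq => c.pos q (hS (Finset.sdiff_subset hq))
          have h2 := pr_block_ge (hV.trans hUsub) hVc
          have h3 : 1 ≤ pr V0 := pr_pos hV0pos
          rw [pr_union hdV]
          have h4 : 2 ^ (i + 1) ≤ 2 ^ (i * r) := by
            apply Nat.pow_le_pow_right (by norm_num)
            calc i + 1 ≤ i * 2 := by omega
              _ ≤ i * r := Nat.mul_le_mul_left _ hr2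
          calc 2 ^ (i + 1) ≤ 1 * (1 * pr V) := by omega
            _ ≤ pr (S \ {q}) * (pr V0 * pr V) :=
                Nat.mul_le_mul h1 (Nat.mul_le_mul_right _ h3)
      · rw [pr_singleton]
        exact_mod_cast hr4

/-- **The chain condition.** -/
theorem chain {S : Finset ℕ} (hS : S ⊆ Q) (hSQ : S ≠ Q) (hL : 2 ^ (j + 2) ≤ pr S) :
    pr S ≤ lowSum Q i S := by
  have h1 : (Pb Q i \ S).card + (S ∩ Pb Q i).card = (Pb Q i).card := by
    rw [Finset.inter_comm]
    exact Finset.card_sdiff_add_card_inter _ _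
  rcases Nat.le_total (Pb Q i).card (2 * (S ∩ Pb Q i).card) with h | h
  · exact c.caseII hS hSQ h
  · exact c.caseI hS hL (by omega)

end Ctx

end Pool.Agent.K1H93.W
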