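import Pool.Agent.K1H93.W.Chain

set_option autoImplicit false

/-! # Sets containing at least half of the block -/

namespace Pool.Agent.K1H93.W

namespace Ctx

variable {Q : Finset ℕ} {i j : ℕ} (c : Ctx Q i j)

include c

/-- If `G` has few elements in the block then `S \ G` is large. -/
theorem sdiff_big {S G : Finset ℕ} (hS : S ⊆ Q) (hE : (Pb Q i).card ≤ 2 * (S ∩ Pb Q i).card)
    (hG : (G ∩ Pb Q i).card ≤ (Pb Q i).card / 16) : 2 ^ i ≤ pr (S \ G) := by
  have hR := c.R_ge
  have h1 : (G ∩ Pb Q i).card < (S ∩ Pb Q i).card := by omega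
  obtain ⟨p, hp, hpG⟩ := Finset.exists_mem_notMem_of_card_lt_card h1
  rw [Finset.mem_inter] at hp hpG
  have h2 : p ∈ S \ G := by
    rw [Finset.mem_sdiff]
    exact ⟨hp.1, fun h => hpG ⟨h, hp.2⟩⟩
  exact (Pb_mem hp.2).1.trans (le_pr h2 fun q hq => c.pos q (hS (Finset.sdiff_subset hq)))

/-- families of products of `r` primes of the block, `r ≥ 2`, slightly larger than `w` -/
theorem beta {E V0 : Finset ℕ} (hE : E ⊆ Pb Q i) (hEc : (Pb Q i).card ≤ 2 * E.card)
    (hV0 : ∀ q ∈ V0, 0 < q) (hd : Disjoint V0 (Pb Q i)) {w : ℝ} (hw1 : (2 : ℝ) ^ i ≤ w)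
    (hw2 : w < 2 ^ (((Pb Q i).card / 16 - 1) * i)) :
    ∃ r, 2 ≤ r ∧ r ≤ (Pb Q i).card / 16 ∧ (∀ G ∈ fam V0 E r, (pr V0 : ℝ) * w < pr G) ∧
      (1 : ℝ) / (pr V0 * w) ≤ ∑ G ∈ fam V0 E r, (1 : ℝ) / pr G := by
  have hR := c.R_ge
  set k := (Pb Q i).card with hk
  have hi0 : 0 < i := by have := c.hi; omega
  have hw0 : 1 ≤ w := le_trans (one_le_pow₀ (by norm_num)) hw1
  obtain ⟨n, hn1, hn2⟩ := near i hi0 w hw0
  have hn0 : 1 ≤ n := by
    by_contra h
    have : n = 0 := by omega
    subst this
    rw [zero_add, mul_one] at hn2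
    linarith
  have hnR : n + 1 ≤ k / 16 := by
    have h1 : (2 : ℝ) ^ (i * n) < 2 ^ ((k / 16 - 1) * i) := lt_of_le_of_lt hn1 hw2
    have h2 : i * n < (k / 16 - 1) * i := (pow_lt_pow_iff_right₀ (by norm_num)).1 h1
    have h3 : n < k / 16 - 1 := by
      rw [mul_comm i n] at h2
      exact Nat.lt_of_mul_lt_mul_right h2
    omega
  have hV0pos : (0 : ℝ) < pr V0 := by exact_mod_cast pr_pos hV0
  have hdE : Disjoint V0 E := Finset.disjoint_of_subset_right hE hd
  refine ⟨n + 1, by omega, hnR, ?_, ?_⟩
  · intro G hG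
    obtain ⟨V, hV, hVc, rfl⟩ := mem_fam hG
    rw [fam_pr hdE hV]
    push_cast
    have h1 := pr_block_ge (hV.trans hE) hVc
    have h2 : (2 : ℝ) ^ (i * (n + 1)) ≤ pr V := by exact_mod_cast h1
    exact mul_lt_mul_of_pos_left (lt_of_lt_of_le hn2 h2) hV0pos
  · refine le_trans ?_ (fam_inv c.pos hV0 hdE hE)
    have h1 : 2 ^ (i + (n + 1) + 1) ≤ E.card.choose (n + 1) :=
      choose_big i c.hi c.dense_i hEc (by omega) hnR
    have h2 : (2 : ℝ) ^ (i + (n + 1)) ≤ (E.card.choose (n + 1) : ℝ) := by
      have : 2 ^ (i + (n + 1)) ≤ E.card.choose (n + 1) :=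
        le_trans (Nat.pow_le_pow_right (by norm_num) (Nat.le_succ _)) h1
      exact_mod_cast this
    calc (1 : ℝ) / (pr V0 * w) ≤ 1 / (pr V0 * 2 ^ (i * n)) := by
          apply one_div_le_one_div_of_le (by positivity)
          exact mul_le_mul_of_nonneg_left hn1 hV0pos.le
      _ = 2 ^ (i + (n + 1)) / (pr V0 * 2 ^ ((i + 1) * (n + 1))) := by
          rw [div_eq_div_iff (by positivity) (by positivity)]
          have : (i + 1) * (n + 1) = (i + (n + 1)) + i * n := by ring
          rw [this, pow_add _ (i + (n + 1)) (i * n)]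
          ring
      _ ≤ _ := by gcongr

/-- **Case II**: `S` contains at least half of the block. -/
theorem caseII {S : Finset ℕ} (hS : S ⊆ Q) (hSQ : S ≠ Q)
    (hE : (Pb Q i).card ≤ 2 * (S ∩ Pb Q i).card) : pr S ≤ lowSum Q i S := by
  have hR := c.R_ge
  set k := (Pb Q i).card with hk
  have hi0 : 0 < i := by have := c.hi; omega
  have hbig := big i c.hi
  set X := Q \ S with hX
  have hXQ : X ⊆ Q := Finset.sdiff_subset
  have hXpos : ∀ q ∈ X, 0 < q := fun q hq => c.pos q (hXQ hq)
  have hXne : X.Nonempty := by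
    rw [hX, Finset.sdiff_nonempty]
    intro h
    exact hSQ (Finset.Subset.antisymm hS h)
  have hx2 : 2 ≤ pr X := by
    obtain ⟨q, hq⟩ := hXne
    exact (c.prime q (hXQ hq)).two_le.trans (le_pr hq hXpos)
  have hEsub : S ∩ Pb Q i ⊆ Pb Q i := Finset.inter_subset_right
  -- inter of an empty family member
  rcases Nat.lt_or_ge (pr X) (4 * i ^ 2) with hx | hx
  · -- small complement
    apply famII c.pos hS (subset_rfl : X ⊆ Q \ S)
      ((Q.filter (fun q => pr X < q)).image (fun q => {q}))
    · intro G hG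
      obtain ⟨q, hq, rfl⟩ := Finset.mem_image.1 hG
      rw [Finset.mem_filter] at hq
      have hqS : q ∈ S := by
        by_contra h
        have h1 : q ∈ X := Finset.mem_sdiff.2 ⟨hq.1, h⟩
        have := le_pr h1 hXpos
        omega
      refine ⟨Finset.singleton_subset_iff.2 hqS, by rw [pr_singleton]; exact hq.2, ?_⟩
      have h1 : 2 ^ i ≤ pr (S \ {q}) := by
        apply c.sdiff_big hS hE
        calc ({q} ∩ Pb Q i).card ≤ ({q} : Finset ℕ).card :=
              Finset.card_le_card Finset.inter_subset_left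
          _ = 1 := Finset.card_singleton _
          _ ≤ k / 16 := by omega
      calc 2 ^ (i + 1) = 2 ^ i * 2 := pow_succ _ _
        _ ≤ pr (S \ {q}) * pr X := Nat.mul_le_mul h1 hx2
    · rw [Finset.sum_image (fun a _ b _ h => Finset.singleton_injective h)]
      simp only [pr_singleton]
      exact c.H1 (pr X) (by omega) hx
  · -- a prefix of the complement
    obtain ⟨q, hq, hq1, hq2⟩ := prefix_prod X (4 * i ^ 2) (by nlinarith) hx
    set X0 := X.filter (fun x => x < q) with hX0
    have hX0X : X0 ⊆ X := Finset.filter_subset _ _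
    have hqX0 : q ∉ X0 := by simp [hX0]
    rcases Nat.lt_or_ge (q * pr X0) (2 ^ ((k / 16 - 1) * i)) with hy | hy
    · -- moderately small
      set Y := insert q X0 with hY
      have hYX : Y ⊆ Q \ S := Finset.insert_subset hq hX0X
      have hprY : pr Y = q * pr X0 := pr_insert hqX0
      rcases Nat.lt_or_ge (pr Y) (2 ^ i) with hy2 | hy2
      · -- one prime
        apply famII c.pos hS hYX (fam ∅ (S ∩ Pb Q i) 1)
        · intro G hG
          obtain ⟨V, hV, hVc, rfl⟩ := mem_fam hG
          rw [Finset.empty_union]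
          refine ⟨hV.trans Finset.inter_subset_left, ?_, ?_⟩
          · have := pr_block_ge (hV.trans hEsub) hVc
            rw [mul_one] at this
            omega
          · have h1 : 2 ^ i ≤ pr (S \ V) := by
              apply c.sdiff_big hS hE
              calc (V ∩ Pb Q i).card ≤ V.card := Finset.card_le_card Finset.inter_subset_left
                _ ≤ k / 16 := by omega
            calc 2 ^ (i + 1) = 2 ^ i * 2 := pow_succ _ _
              _ ≤ pr (S \ V) * pr Y := by
                  apply Nat.mul_le_mul h1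
                  rw [hprY]
                  have : 2 ≤ 4 * i ^ 2 := by nlinarith
                  omega
        · refine le_trans ?_ (fam_inv c.pos (by simp) (Finset.disjoint_empty_left _) hEsub)
          rw [pr_empty, Nat.choose_one_right, mul_one, Nat.cast_one, one_mul]
          have hYpos : (0 : ℝ) < pr Y := by
            have : 0 < pr Y := by rw [hprY]; have : 2 ≤ 4 * i ^ 2 := by nlinarith
                                  omega
            exact_mod_cast this
          rw [div_le_div_iff₀ hYpos (by positivity), one_mul]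
          have h1 : 2 ^ (i + 1) ≤ (S ∩ Pb Q i).card * pr Y := by
            calc 2 ^ (i + 1) = 2 * 2 ^ i := pow_succ' _ _
              _ ≤ 2 * (k * i ^ 2) := Nat.mul_le_mul_left _ c.dense_i
              _ ≤ 2 * (2 * (S ∩ Pb Q i).card * i ^ 2) := by gcongr
              _ = (S ∩ Pb Q i).card * (4 * i ^ 2) := by ring
              _ ≤ (S ∩ Pb Q i).card * pr Y := by
                  apply Nat.mul_le_mul_left
                  rw [hprY]; exact hq2
          exact_mod_cast h1
      · -- several primes
        obtain ⟨r, hr2, hrR, hr3, hr4⟩ := c.beta (V0 := ∅) hEsub hE (by simp)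
          (Finset.disjoint_empty_left _) (w := (pr Y : ℝ)) (by exact_mod_cast hy2)
          (by rw [hprY]; exact_mod_cast hy)
        rw [pr_empty, Nat.cast_one, one_mul] at hr3 hr4
        apply famII c.pos hS hYX (fam ∅ (S ∩ Pb Q i) r) _ hr4
        intro G hG
        have h0 := hr3 G hG
        obtain ⟨V, hV, hVc, rfl⟩ := mem_fam hG
        rw [Finset.empty_union] at h0 ⊢
        refine ⟨hV.trans Finset.inter_subset_left, by exact_mod_cast h0, ?_⟩
        have h1 : 2 ^ i ≤ pr (S \ V) := by
          apply c.sdiff_big hS hE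
          calc (V ∩ Pb Q i).card ≤ V.card := Finset.card_le_card Finset.inter_subset_left
            _ ≤ k / 16 := by omega
        calc 2 ^ (i + 1) = 2 ^ i * 2 := pow_succ _ _
          _ ≤ pr (S \ V) * pr Y := by
              apply Nat.mul_le_mul h1
              rw [hprY]
              have : 2 ≤ 4 * i ^ 2 := by nlinarith
              omega
    · -- a large prime
      have hqbig : 2 ^ ((k / 16 - 2) * i) ≤ q := by
        have h1 : 2 ^ ((k / 16 - 2) * i) * 2 ^ i ≤ q * 2 ^ i := by
          calc 2 ^ ((k / 16 - 2) * i) * 2 ^ i = 2 ^ ((k / 16 - 1) * i) := by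
                rw [← pow_add]
                congr 1
                have : k / 16 - 1 = (k / 16 - 2) + 1 := by omega
                rw [this]; ring
            _ ≤ q * pr X0 := hy
            _ ≤ q * 2 ^ i := by
                apply Nat.mul_le_mul_left
                have e1 : 4 * i ^ 2 ≤ i ^ 40 := by
                  calc 4 * i ^ 2 ≤ i * i ^ 2 := Nat.mul_le_mul_right _ (by have := c.hi; omega)
                    _ = i ^ 3 := by ring
                    _ ≤ i ^ 40 := Nat.pow_le_pow_right hi0 (by norm_num)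
                have e2 : 2 ^ (i / 4) ≤ 2 ^ i :=
                  Nat.pow_le_pow_right (by norm_num) (Nat.div_le_self _ _)
                omega
        exact Nat.le_of_mul_le_mul_right h1 (by positivity)
      have hqQ : q ∈ Q := hXQ hq
      have hpow : ∀ m, m ≤ k / 16 - 2 → 2 ^ (m * i) ≤ q := fun m hm =>
        le_trans (Nat.pow_le_pow_right (by norm_num) (Nat.mul_le_mul_right _ hm)) hqbig
      have hX0s : pr X0 ≤ 2 ^ (j + 1) := by
        have e1 : 4 * i ^ 2 ≤ i ^ 40 := by
          calc 4 * i ^ 2 ≤ i * i ^ 2 := Nat.mul_le_mul_right _ (by have := c.hi; omega)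
            _ = i ^ 3 := by ring
            _ ≤ i ^ 40 := Nat.pow_le_pow_right hi0 (by norm_num)
        have e2 : 2 ^ (i / 4) ≤ 2 ^ (j + 1) :=
          Nat.pow_le_pow_right (by norm_num) (by have := c.hij; omega)
        omega
      have hqi : (2 : ℝ) ^ i ≤ q := by
        have := hpow 1 (by omega)
        rw [one_mul] at this
        exact_mod_cast this
      obtain ⟨V0, hV0, hz1, hz2⟩ := c.wa hqQ (hX0X.trans hXQ) hX0s
        (by rw [← hk]; exact hpow _ (by omega)) (z := (q : ℝ) / 2 ^ i)
        (by rwa [le_div_iff₀ (by positivity), one_mul])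
        (div_le_self (by positivity) (one_le_pow₀ (by norm_num)))
      rw [← hk] at hz2
      have hV0Q : V0 ⊆ Q := hV0.trans (Finset.sdiff_subset.trans
        (Finset.sdiff_subset.trans (Finset.filter_subset _ _)))
      have hV0pos : ∀ x ∈ V0, 0 < x := fun x hx => c.pos x (hV0Q hx)
      have hV0S : V0 ⊆ S := by
        intro x hx
        have h1 := Finset.mem_sdiff.1 (hV0 hx)
        have h2 := Finset.mem_sdiff.1 h1.1
        have h3 := Finset.mem_filter.1 h2.1
        by_contra h
        exact h1.2 (Finset.mem_filter.2 ⟨Finset.mem_sdiff.2 ⟨h3.1, h⟩, h3.2⟩)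
      have hV0P : Disjoint V0 (Pb Q i) := by
        rw [Finset.disjoint_left]
        intro x hx
        exact (Finset.mem_sdiff.1 (Finset.mem_sdiff.1 (hV0 hx)).1).2
      have hprV0 : (0 : ℝ) < pr V0 := by exact_mod_cast pr_pos hV0pos
      set w : ℝ := q / pr V0 with hw
      have hVw : (pr V0 : ℝ) * w = q := by rw [hw]; field_simp
      obtain ⟨r, hr2, hrR, hr3, hr4⟩ := c.beta (V0 := V0) hEsub hE hV0pos hV0P (w := w)
        (by
          rw [hw, le_div_iff₀ hprV0]
          rw [le_div_iff₀ (by positivity)] at hz1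
          linarith)
        (by
          rw [hw, div_lt_iff₀ hprV0, ← hk]
          rw [div_le_iff₀ (by positivity)] at hz2
          have h1 : (2 : ℝ) ^ ((k / 16 - 4) * i) * 2 ^ i < 2 ^ ((k / 16 - 1) * i) := by
            rw [← pow_add]
            apply pow_lt_pow_right₀ (by norm_num)
            have : k / 16 - 1 = (k / 16 - 4) + 3 := by omega
            rw [this]
            nlinarith
          calc (q : ℝ) ≤ 2 ^ ((k / 16 - 4) * i) * pr V0 * 2 ^ i := hz2
            _ = (2 ^ ((k / 16 - 4) * i) * 2 ^ i) * pr V0 := by ring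
            _ < 2 ^ ((k / 16 - 1) * i) * pr V0 := by gcongr)
      rw [hVw] at hr3 hr4
      apply famII c.pos hS (Finset.singleton_subset_iff.2 hq : ({q} : Finset ℕ) ⊆ Q \ S)
        (fam V0 (S ∩ Pb Q i) r)
      · intro G hG
        have h0 := hr3 G hG
        obtain ⟨V, hV, hVc, rfl⟩ := mem_fam hG
        refine ⟨Finset.union_subset hV0S (hV.trans Finset.inter_subset_left), ?_, ?_⟩
        · rw [pr_singleton]
          exact_mod_cast h0
        · rw [pr_singleton]
          have h1 : 1 ≤ pr (S \ (V0 ∪ V)) :=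
            pr_pos fun q hq => c.pos q (hS (Finset.sdiff_subset hq))
          calc 2 ^ (i + 1) ≤ 2 ^ (2 * i) := Nat.pow_le_pow_right (by norm_num) (by omega)
            _ ≤ q := hpow 2 (by omega)
            _ = 1 * q := (one_mul q).symm
            _ ≤ _ := Nat.mul_le_mul_right _ h1
      · rw [pr_singleton]
        exact hr4

end Ctx

end Pool.Agent.K1H93.W
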