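import Mathlib

set_option autoImplicit false

/-! # Products over subsets: windows, prefixes, replacing subproducts -/

namespace Pool.Agent.K1H93.W

/-- the product of the elements -/
def pr (S : Finset ℕ) : ℕ := ∏ q ∈ S, q

theorem pr_pos {S : Finset ℕ} (h : ∀ q ∈ S, 0 < q) : 0 < pr S := Finset.prod_pos h

theorem pr_union {S T : Finset ℕ} (h : Disjoint S T) : pr (S ∪ T) = pr S * pr T :=
  Finset.prod_union h

theorem pr_insert {S : Finset ℕ} {a : ℕ} (h : a ∉ S) : pr (insert a S) = a * pr S :=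
  Finset.prod_insert h

theorem pr_singleton (a : ℕ) : pr {a} = a := Finset.prod_singleton _ _

theorem pr_empty : pr ∅ = 1 := rfl

theorem pr_mono {S T : Finset ℕ} (h : S ⊆ T) (hT : ∀ q ∈ T, 0 < q) : pr S ≤ pr T :=
  Nat.le_of_dvd (pr_pos hT) (Finset.prod_dvd_prod_of_subset _ _ _ h)

theorem pr_sdiff {S T : Finset ℕ} (h : S ⊆ T) : pr (T \ S) * pr S = pr T :=
  Finset.prod_sdiff h

theorem pr_union_le {S T : Finset ℕ} (hS : ∀ q ∈ S, 0 < q) (hT : ∀ q ∈ T, 0 < q) :
    pr (S ∪ T) ≤ pr S * pr T := by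
  classical
  rw [← Finset.sdiff_union_self_eq_union, pr_union Finset.sdiff_disjoint]
  exact Nat.mul_le_mul_right _ (pr_mono Finset.sdiff_subset hS)

theorem le_pr {S : Finset ℕ} {a : ℕ} (ha : a ∈ S) (hS : ∀ q ∈ S, 0 < q) : a ≤ pr S := by
  rw [← pr_singleton a]
  exact pr_mono (Finset.singleton_subset_iff.2 ha) hS

/-- the first prefix product which is at least `B` -/
theorem prefix_prod (A : Finset ℕ) (B : ℕ) (hB : 1 < B) (h : B ≤ pr A) :
    ∃ q ∈ A, pr (A.filter (fun x => x < q)) < B ∧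
      B ≤ q * pr (A.filter (fun x => x < q)) := by
  induction A using Finset.induction_on_max with
  | empty => rw [pr_empty] at h; omega
  | insert a A ha ih =>
    have haA : a ∉ A := fun h => lt_irrefl _ (ha a h)
    have hf : (insert a A).filter (fun x => x < a) = A := by
      ext x
      simp only [Finset.mem_filter, Finset.mem_insert]
      constructor
      · rintro ⟨rfl | h, h'⟩
        · omega
        · exact h
      · intro h
        exact ⟨Or.inr h, ha x h⟩
    by_cases h1 : B ≤ pr A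
    · obtain ⟨q, hq, h2, h3⟩ := ih h1
      have h4 : (insert a A).filter (fun x => x < q) = A.filter (fun x => x < q) := by
        rw [Finset.filter_insert, if_neg]
        have := ha q hq
        omega
      exact ⟨q, Finset.mem_insert_of_mem hq, by rwa [h4], by rwa [h4]⟩
    · refine ⟨a, Finset.mem_insert_self _ _, ?_, ?_⟩
      · rw [hf]; omega
      · rw [hf, ← pr_insert haA]; exact h

/-- Windows: the divisors have no multiplicative gap larger than `Z`. -/
theorem window (T : Finset ℕ) (Z : ℝ) (hZ : 1 ≤ Z)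
    (hT : ∀ ρ ∈ T, 0 < ρ ∧ (ρ : ℝ) ≤ Z * pr (T.filter (fun x => x < ρ))) :
    ∀ z : ℝ, 1 ≤ z → z ≤ Z * pr T → ∃ V ⊆ T, (pr V : ℝ) ≤ z ∧ z ≤ Z * pr V := by
  induction T using Finset.induction_on_max with
  | empty =>
    intro z h1 h2
    exact ⟨∅, subset_rfl, by rw [pr_empty]; exact_mod_cast h1, h2⟩
  | insert a T ha ih =>
    have haT : a ∉ T := fun h => lt_irrefl _ (ha a h)
    have hf : (insert a T).filter (fun x => x < a) = T := by
      ext x
      simp only [Finset.mem_filter, Finset.mem_insert]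
      constructor
      · rintro ⟨rfl | h, h'⟩
        · omega
        · exact h
      · intro h
        exact ⟨Or.inr h, ha x h⟩
    have ih' := ih (by
      intro ρ hρ
      have h1 := hT ρ (Finset.mem_insert_of_mem hρ)
      have h4 : (insert a T).filter (fun x => x < ρ) = T.filter (fun x => x < ρ) := by
        rw [Finset.filter_insert, if_neg]
        have := ha ρ hρ
        omega
      rwa [h4] at h1)
    intro z hz1 hz2
    by_cases h1 : z ≤ Z * pr T
    · obtain ⟨V, hV, h2, h3⟩ := ih' z hz1 h1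
      exact ⟨V, hV.trans (Finset.subset_insert _ _), h2, h3⟩
    · rw [not_le] at h1
      obtain ⟨h2, h3⟩ := hT a (Finset.mem_insert_self _ _)
      rw [hf] at h3
      have h2' : (0 : ℝ) < a := by exact_mod_cast h2
      rw [pr_insert haT] at hz2
      push_cast at hz2
      obtain ⟨V, hV, h4, h5⟩ := ih' (z / a) (by
          rw [le_div_iff₀ h2']
          linarith) (by
          rw [div_le_iff₀ h2']
          calc z ≤ Z * (a * pr T) := hz2
            _ = Z * pr T * a := by ring)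
      refine ⟨insert a V, Finset.insert_subset_insert _ hV, ?_, ?_⟩
      · rw [pr_insert (fun h => haT (hV h))]
        push_cast
        rw [le_div_iff₀ h2'] at h4
        linarith
      · rw [pr_insert (fun h => haT (hV h))]
        push_cast
        rw [div_le_iff₀ h2'] at h5
        calc z ≤ Z * pr V * a := h5
          _ = Z * (a * pr V) := by ring

/-- The sum of the products of the subsets `T` of `Q` with `2 ^ (i + 1) ≤ pr T < pr S`. -/
def lowSum (Q : Finset ℕ) (i : ℕ) (S : Finset ℕ) : ℕ :=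
  ∑ T ∈ Q.powerset.filter (fun T => 2 ^ (i + 1) ≤ pr T ∧ pr T < pr S), pr T

/-- replacing a part of `S` by smaller products from outside -/
theorem famI {Q S Sg : Finset ℕ} {i : ℕ} (hQ : ∀ q ∈ Q, 0 < q) (hS : S ⊆ Q) (hSg : Sg ⊆ S)
    (𝒱 : Finset (Finset ℕ))
    (h1 : ∀ V ∈ 𝒱, V ⊆ Q \ S ∧ pr V < pr Sg ∧ 2 ^ (i + 1) ≤ pr (S \ Sg) * pr V)
    (h2 : pr Sg ≤ ∑ V ∈ 𝒱, pr V) : pr S ≤ lowSum Q i S := by
  classical
  have hdis : ∀ V ∈ 𝒱, Disjoint (S \ Sg) V := by
    intro V hV
    apply Finset.disjoint_of_subset_left Finset.sdiff_subset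
    exact Finset.disjoint_of_subset_right (h1 V hV).1 Finset.disjoint_sdiff
  have hinj : Set.InjOn (fun V => (S \ Sg) ∪ V) (𝒱 : Set (Finset ℕ)) := by
    intro V hV V' hV' h
    simp only at h
    have e : ∀ W ∈ 𝒱, ((S \ Sg) ∪ W) \ (S \ Sg) = W := by
      intro W hW
      rw [Finset.union_sdiff_left]
      exact Finset.sdiff_eq_self_of_disjoint (hdis W hW).symm
    rw [← e V hV, ← e V' hV', h]
  have hpos : 0 < pr (S \ Sg) := pr_pos fun q hq => hQ q (hS (Finset.sdiff_subset hq))
  calc pr S = pr (S \ Sg) * pr Sg := (pr_sdiff hSg).symm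
    _ ≤ pr (S \ Sg) * ∑ V ∈ 𝒱, pr V := Nat.mul_le_mul_left _ h2
    _ = ∑ V ∈ 𝒱, pr ((S \ Sg) ∪ V) := by
        rw [Finset.mul_sum]
        exact Finset.sum_congr rfl fun V hV => (pr_union (hdis V hV)).symm
    _ = ∑ T ∈ 𝒱.image (fun V => (S \ Sg) ∪ V), pr T := (Finset.sum_image hinj).symm
    _ ≤ lowSum Q i S := by
        apply Finset.sum_le_sum_of_subset
        intro T hT
        obtain ⟨V, hV, rfl⟩ := Finset.mem_image.1 hT
        obtain ⟨h3, h4, h5⟩ := h1 V hV
        rw [Finset.mem_filter, Finset.mem_powerset]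
        refine ⟨Finset.union_subset (Finset.sdiff_subset.trans hS) (h3.trans Finset.sdiff_subset),
          ?_, ?_⟩
        · rw [pr_union (hdis V hV)]; exact h5
        · rw [pr_union (hdis V hV), ← pr_sdiff hSg]
          exact Nat.mul_lt_mul_of_pos_left h4 hpos

/-- replacing larger parts of `S` by a product from outside -/
theorem famII {Q S Y : Finset ℕ} {i : ℕ} (hQ : ∀ q ∈ Q, 0 < q) (hS : S ⊆ Q) (hY : Y ⊆ Q \ S)
    (𝒢 : Finset (Finset ℕ))
    (h1 : ∀ G ∈ 𝒢, G ⊆ S ∧ pr Y < pr G ∧ 2 ^ (i + 1) ≤ pr (S \ G) * pr Y)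
    (h2 : (1 : ℝ) / pr Y ≤ ∑ G ∈ 𝒢, (1 : ℝ) / pr G) : pr S ≤ lowSum Q i S := by
  classical
  have hdisSY : Disjoint S Y :=
    Finset.disjoint_of_subset_right hY Finset.disjoint_sdiff
  have hdis : ∀ G, Disjoint (S \ G) Y := fun G =>
    Finset.disjoint_of_subset_left Finset.sdiff_subset hdisSY
  have hinj : Set.InjOn (fun G => (S \ G) ∪ Y) (𝒢 : Set (Finset ℕ)) := by
    intro G hG G' hG' h
    simp only at h
    have e : ∀ W ∈ 𝒢, S \ (((S \ W) ∪ Y)) = W := by
      intro W hW
      have h3 := (h1 W hW).1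
      ext x
      simp only [Finset.mem_sdiff, Finset.mem_union, not_or, not_and, not_not]
      constructor
      · rintro ⟨h4, h5, _⟩
        exact h5 h4
      · intro h4
        exact ⟨h3 h4, fun _ => h4, fun h5 => (Finset.disjoint_left.1 hdisSY) (h3 h4) h5⟩
    rw [← e G hG, ← e G' hG', h]
  have hYpos : 0 < pr Y := pr_pos fun q hq => hQ q (Finset.sdiff_subset (hY hq))
  have hGpos : ∀ G ∈ 𝒢, 0 < pr G := fun G hG => pr_pos fun q hq => hQ q (hS ((h1 G hG).1 hq))
  have hYpos' : (0 : ℝ) < pr Y := by exact_mod_cast hYpos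
  have key : (pr S : ℝ) ≤ ((∑ G ∈ 𝒢, pr ((S \ G) ∪ Y) : ℕ) : ℝ) := by
    calc (pr S : ℝ) = pr S * pr Y * (1 / pr Y) := by field_simp
      _ ≤ pr S * pr Y * ∑ G ∈ 𝒢, (1 : ℝ) / pr G := by gcongr
      _ = ∑ G ∈ 𝒢, pr S * pr Y * ((1 : ℝ) / pr G) := by rw [Finset.mul_sum]
      _ = ∑ G ∈ 𝒢, ((pr ((S \ G) ∪ Y) : ℕ) : ℝ) := by
          apply Finset.sum_congr rfl
          intro G hG
          have h3 : (0 : ℝ) < pr G := by exact_mod_cast hGpos G hG
          rw [pr_union (hdis G), ← pr_sdiff (h1 G hG).1]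
          push_cast
          field_simp
      _ = _ := by push_cast; rfl
  calc pr S ≤ ∑ G ∈ 𝒢, pr ((S \ G) ∪ Y) := by exact_mod_cast key
    _ = ∑ T ∈ 𝒢.image (fun G => (S \ G) ∪ Y), pr T := (Finset.sum_image hinj).symm
    _ ≤ lowSum Q i S := by
        apply Finset.sum_le_sum_of_subset
        intro T hT
        obtain ⟨G, hG, rfl⟩ := Finset.mem_image.1 hT
        obtain ⟨h3, h4, h5⟩ := h1 G hG
        rw [Finset.mem_filter, Finset.mem_powerset]
        refine ⟨Finset.union_subset (Finset.sdiff_subset.trans hS) (hY.trans Finset.sdiff_subset),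
          ?_, ?_⟩
        · rw [pr_union (hdis G)]; exact h5
        · rw [pr_union (hdis G), ← pr_sdiff h3]
          exact Nat.mul_lt_mul_of_pos_left h4
            (pr_pos fun q hq => hQ q (hS (Finset.sdiff_subset hq)))

end Pool.Agent.K1H93.W
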