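import Pool.Agent.K1H93.W.Num2
import Pool.Agent.K1H93.W.Win

set_option autoImplicit false

/-! # The chain condition for the products of subsets of `Q` -/

namespace Pool.Agent.K1H93.W

/-- dyadic block -/
def Pb (Q : Finset ℕ) (t : ℕ) : Finset ℕ := Q.filter (fun q => 2 ^ t ≤ q ∧ q < 2 ^ (t + 1))

/-- the hypotheses on the set of primes `Q` -/
structure Ctx (Q : Finset ℕ) (i j : ℕ) : Prop where
  prime : ∀ q ∈ Q, q.Prime
  hi : 2 ^ 20 ≤ i
  hij : i + Nat.log 2 i + 5 ≤ j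
  hji : 2 * j ≤ 3 * i
  dense_i : 2 ^ i ≤ (Pb Q i).card * i ^ 2
  dense_j : 2 ^ j ≤ (Pb Q j).card * j ^ 2
  H1 : ∀ x : ℕ, 1 ≤ x → x < 4 * i ^ 2 →
    (1 : ℝ) / x ≤ ∑ q ∈ Q.filter (fun q => x < q), (1 : ℝ) / q
  H3 : ∀ ρ ∈ Q, 2 ^ (i + 1) ≤ ρ → ρ ^ 32 ≤ pr (Q.filter (fun q => q < ρ))

theorem Pb_sub (Q : Finset ℕ) (t : ℕ) : Pb Q t ⊆ Q := Finset.filter_subset _ _

theorem Pb_mem {Q : Finset ℕ} {t q : ℕ} (h : q ∈ Pb Q t) : 2 ^ t ≤ q ∧ q < 2 ^ (t + 1) :=
  (Finset.mem_filter.1 h).2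

theorem pr_block_ge {Q V : Finset ℕ} {t r : ℕ} (hV : V ⊆ Pb Q t) (hr : V.card = r) :
    2 ^ (t * r) ≤ pr V := by
  calc 2 ^ (t * r) = ∏ _q ∈ V, 2 ^ t := by rw [Finset.prod_const, hr, pow_mul]
    _ ≤ ∏ q ∈ V, q := Finset.prod_le_prod (fun _ _ => Nat.zero_le _) fun q hq => (Pb_mem (hV hq)).1

theorem pr_block_le {Q V : Finset ℕ} {t r : ℕ} (hV : V ⊆ Pb Q t) (hr : V.card = r) :
    pr V ≤ 2 ^ ((t + 1) * r) := by
  calc pr V = ∏ q ∈ V, q := rfl
    _ ≤ ∏ _q ∈ V, 2 ^ (t + 1) :=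
        Finset.prod_le_prod (fun _ _ => Nat.zero_le _) fun q hq => (Pb_mem (hV hq)).2.le
    _ = 2 ^ ((t + 1) * r) := by rw [Finset.prod_const, hr, pow_mul]

theorem pr_block_lt {Q V : Finset ℕ} {t r : ℕ} (hV : V ⊆ Pb Q t) (hr : V.card = r) (h0 : 0 < r) :
    pr V < 2 ^ ((t + 1) * r) := by
  calc pr V = ∏ q ∈ V, q := rfl
    _ < ∏ _q ∈ V, 2 ^ (t + 1) := by
        apply Finset.prod_lt_prod_of_nonempty
        · intro q hq
          exact lt_of_lt_of_le (by positivity) (Pb_mem (hV hq)).1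
        · exact fun q hq => (Pb_mem (hV hq)).2
        · rw [← Finset.card_pos]; omega
    _ = 2 ^ ((t + 1) * r) := by rw [Finset.prod_const, hr, pow_mul]

/-- the family of the sets `V0 ∪ V`, `V ⊆ E` with `r` elements -/
def fam (V0 E : Finset ℕ) (r : ℕ) : Finset (Finset ℕ) :=
  (E.powersetCard r).image (fun V => V0 ∪ V)

theorem mem_fam {V0 E G : Finset ℕ} {r : ℕ} (h : G ∈ fam V0 E r) :
    ∃ V, V ⊆ E ∧ V.card = r ∧ G = V0 ∪ V := by
  obtain ⟨V, hV, rfl⟩ := Finset.mem_image.1 h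
  rw [Finset.mem_powersetCard] at hV
  exact ⟨V, hV.1, hV.2, rfl⟩

theorem fam_inj {V0 E : Finset ℕ} (hd : Disjoint V0 E) (r : ℕ) :
    Set.InjOn (fun V => V0 ∪ V) (E.powersetCard r : Set (Finset ℕ)) := by
  intro V hV V' hV' h
  rw [Finset.mem_coe, Finset.mem_powersetCard] at hV hV'
  simp only at h
  have e : ∀ W ⊆ E, (V0 ∪ W) \ V0 = W := by
    intro W hW
    rw [Finset.union_sdiff_left]
    exact Finset.sdiff_eq_self_of_disjoint (Finset.disjoint_of_subset_right hW hd).symm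
  rw [← e V hV.1, ← e V' hV'.1, h]

theorem fam_pr {V0 E : Finset ℕ} (hd : Disjoint V0 E) {V : Finset ℕ} (hV : V ⊆ E) :
    pr (V0 ∪ V) = pr V0 * pr V := pr_union (Finset.disjoint_of_subset_right hV hd)

theorem fam_sum {Q V0 E : Finset ℕ} {i r : ℕ} (hd : Disjoint V0 E) (hE : E ⊆ Pb Q i) :
    pr V0 * (E.card.choose r * 2 ^ (i * r)) ≤ ∑ G ∈ fam V0 E r, pr G := by
  unfold fam
  rw [Finset.sum_image (fam_inj hd r)]
  calc pr V0 * (E.card.choose r * 2 ^ (i * r))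
      = ∑ V ∈ E.powersetCard r, pr V0 * 2 ^ (i * r) := by
        rw [Finset.sum_const, Finset.card_powersetCard, smul_eq_mul]; ring
    _ ≤ ∑ V ∈ E.powersetCard r, pr (V0 ∪ V) := by
        apply Finset.sum_le_sum
        intro V hV
        rw [Finset.mem_powersetCard] at hV
        rw [fam_pr hd hV.1]
        exact Nat.mul_le_mul_left _ (pr_block_ge (hV.1.trans hE) hV.2)

theorem fam_inv {Q V0 E : Finset ℕ} {i r : ℕ} (hQ : ∀ q ∈ Q, 0 < q) (h0 : ∀ q ∈ V0, 0 < q)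
    (hd : Disjoint V0 E) (hE : E ⊆ Pb Q i) :
    (E.card.choose r : ℝ) / (pr V0 * 2 ^ ((i + 1) * r)) ≤ ∑ G ∈ fam V0 E r, (1 : ℝ) / pr G := by
  unfold fam
  rw [Finset.sum_image (fam_inj hd r)]
  have hp0 : (0 : ℝ) < pr V0 := by exact_mod_cast pr_pos h0
  calc (E.card.choose r : ℝ) / (pr V0 * 2 ^ ((i + 1) * r))
      = ∑ V ∈ E.powersetCard r, (1 : ℝ) / (pr V0 * 2 ^ ((i + 1) * r)) := by
        rw [Finset.sum_const, Finset.card_powersetCard, nsmul_eq_mul]; ring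
    _ ≤ ∑ V ∈ E.powersetCard r, (1 : ℝ) / pr (V0 ∪ V) := by
        apply Finset.sum_le_sum
        intro V hV
        rw [Finset.mem_powersetCard] at hV
        rw [fam_pr hd hV.1]
        push_cast
        have h1 : 0 < pr V := pr_pos fun q hq => hQ q (Pb_sub _ _ (hE (hV.1 hq)))
        have h2 : (0 : ℝ) < pr V := by exact_mod_cast h1
        have h3 : (pr V : ℝ) ≤ 2 ^ ((i + 1) * r) := by
          exact_mod_cast pr_block_le (hV.1.trans hE) hV.2
        apply one_div_le_one_div_of_le (by positivity)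
        exact mul_le_mul_of_nonneg_left h3 hp0.le

theorem near (c : ℕ) (hc : 0 < c) (w : ℝ) (h1 : 1 ≤ w) :
    ∃ n : ℕ, (2 : ℝ) ^ (c * n) ≤ w ∧ w < 2 ^ (c * (n + 1)) := by
  obtain ⟨n, hn1, hn2⟩ := exists_nat_pow_near h1 (show (1 : ℝ) < 2 ^ c from
    one_lt_pow₀ (by norm_num) hc.ne')
  exact ⟨n, by rwa [pow_mul], by rwa [pow_mul]⟩

namespace Ctx

variable {Q : Finset ℕ} {i j : ℕ} (c : Ctx Q i j)

include c

theorem pos : ∀ q ∈ Q, 0 < q := fun q hq => (c.prime q hq).pos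

/-- number of the blocks -/
theorem R_ge : 1000 ≤ (Pb Q i).card / 16 := R_big i c.hi c.dense_i

theorem wa {ρ : ℕ} (hρ : ρ ∈ Q) {Xs : Finset ℕ} (hXs1 : Xs ⊆ Q)
    (hXs2 : pr Xs ≤ 2 ^ (j + 1)) (hZ : 2 ^ (((Pb Q i).card / 16 - 4) * i) ≤ ρ) {z : ℝ}
    (hz1 : 1 ≤ z) (hz2 : z ≤ ρ) :
    ∃ V ⊆ ((Q.filter (fun q => q < ρ)) \ Pb Q i) \ Xs,
      (pr V : ℝ) ≤ z ∧ z ≤ 2 ^ (((Pb Q i).card / 16 - 4) * i) * pr V := by
  set k := (Pb Q i).card with hk
  set T := ((Q.filter (fun q => q < ρ)) \ Pb Q i) \ Xs with hT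
  have hR := c.R_ge
  rw [← hk] at hR
  have hi0 : 0 < i := by have := c.hi; omega
  have hTQ : T ⊆ Q := Finset.sdiff_subset.trans (Finset.sdiff_subset.trans (Finset.filter_subset _ _))
  have hTpos : ∀ q ∈ T, 0 < q := fun q hq => c.pos q (hTQ hq)
  have key : ∀ σ ∈ Q, 2 ^ ((k / 16 - 4) * i) ≤ σ → σ ≤ ρ →
      σ ≤ pr (T.filter (fun q => q < σ)) := by
    intro σ hσ hZσ hσρ
    have h1 : 2 ^ (i + 1) ≤ σ := by
      refine le_trans (Nat.pow_le_pow_right (by norm_num) ?_) hZσ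
      calc i + 1 ≤ 2 * i := by omega
        _ ≤ (k / 16 - 4) * i := Nat.mul_le_mul_right _ (by omega)
    have h2 := c.H3 σ hσ h1
    have hsub : Q.filter (fun q => q < σ) ⊆ (T.filter (fun q => q < σ) ∪ Pb Q i) ∪ Xs := by
      intro x hx
      rw [Finset.mem_filter] at hx
      simp only [Finset.mem_union, Finset.mem_filter, hT, Finset.mem_sdiff]
      by_cases hx1 : x ∈ Pb Q i
      · exact Or.inl (Or.inr hx1)
      · by_cases hx2 : x ∈ Xs
        · exact Or.inr hx2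
        · exact Or.inl (Or.inl ⟨⟨⟨⟨hx.1, by omega⟩, hx1⟩, hx2⟩, hx.2⟩)
    have hfpos : ∀ q ∈ T.filter (fun q => q < σ), 0 < q := fun q hq =>
      hTpos q (Finset.filter_subset _ _ hq)
    have hPpos : ∀ q ∈ Pb Q i, 0 < q := fun q hq => c.pos q (Pb_sub _ _ hq)
    have hXpos : ∀ q ∈ Xs, 0 < q := fun q hq => c.pos q (hXs1 hq)
    set t := pr (T.filter (fun q => q < σ)) with ht
    have h3 : pr (Q.filter (fun q => q < σ)) ≤ t * pr (Pb Q i) * pr Xs := by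
      calc pr (Q.filter (fun q => q < σ)) ≤ pr ((T.filter (fun q => q < σ) ∪ Pb Q i) ∪ Xs) := by
            apply pr_mono hsub
            intro q hq
            rw [Finset.mem_union, Finset.mem_union] at hq
            rcases hq with (hq | hq) | hq
            · exact hfpos q hq
            · exact hPpos q hq
            · exact hXpos q hq
        _ ≤ pr (T.filter (fun q => q < σ) ∪ Pb Q i) * pr Xs := by
            apply pr_union_le _ hXpos
            intro q hq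
            rw [Finset.mem_union] at hq
            rcases hq with hq | hq
            · exact hfpos q hq
            · exact hPpos q hq
        _ ≤ t * pr (Pb Q i) * pr Xs := Nat.mul_le_mul_right _ (pr_union_le hfpos hPpos)
    have h4 : pr (Pb Q i) ≤ 2 ^ ((i + 1) * k) := pr_block_le subset_rfl hk.symm
    have h5 : pr (Pb Q i) * pr Xs ≤ σ ^ 30 := by
      calc pr (Pb Q i) * pr Xs ≤ 2 ^ ((i + 1) * k) * 2 ^ (j + 1) := Nat.mul_le_mul h4 hXs2
        _ = 2 ^ ((i + 1) * k + (j + 1)) := (pow_add _ _ _).symm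
        _ ≤ 2 ^ (30 * ((k / 16 - 4) * i)) :=
            Nat.pow_le_pow_right (by norm_num) (exp_big i j c.hi c.dense_i c.hji)
        _ = (2 ^ ((k / 16 - 4) * i)) ^ 30 := by rw [← pow_mul, mul_comm]
        _ ≤ σ ^ 30 := Nat.pow_le_pow_left hZσ _
    have hσ0 : 0 < σ := c.pos σ hσ
    have h6 : σ ^ 2 * σ ^ 30 ≤ t * σ ^ 30 := by
      calc σ ^ 2 * σ ^ 30 = σ ^ 32 := by ring
        _ ≤ pr (Q.filter (fun q => q < σ)) := h2
        _ ≤ t * pr (Pb Q i) * pr Xs := h3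
        _ = t * (pr (Pb Q i) * pr Xs) := by ring
        _ ≤ t * σ ^ 30 := Nat.mul_le_mul_left _ h5
    have h7 : σ ^ 2 ≤ t := Nat.le_of_mul_le_mul_right h6 (by positivity)
    calc σ = σ * 1 := (mul_one _).symm
      _ ≤ σ * σ := Nat.mul_le_mul_left _ hσ0
      _ = σ ^ 2 := (sq σ).symm
      _ ≤ t := h7
  have hZ1 : (1 : ℝ) ≤ 2 ^ ((k / 16 - 4) * i) := one_le_pow₀ (by norm_num)
  apply window T _ hZ1 _ z hz1
  · have h1 := key ρ hρ hZ le_rfl
    have h2 : T.filter (fun q => q < ρ) = T := by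
      apply Finset.filter_true_of_mem
      intro q hq
      have := Finset.sdiff_subset (Finset.sdiff_subset hq)
      exact (Finset.mem_filter.1 this).2
    rw [h2] at h1
    have h3 : (ρ : ℝ) ≤ pr T := by exact_mod_cast h1
    have h4 : (0 : ℝ) ≤ pr T := Nat.cast_nonneg _
    nlinarith
  · intro σ hσ
    refine ⟨hTpos σ hσ, ?_⟩
    have hσρ : σ < ρ := (Finset.mem_filter.1 (Finset.sdiff_subset (Finset.sdiff_subset hσ))).2
    by_cases h : 2 ^ ((k / 16 - 4) * i) ≤ σ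
    · have h1 := key σ (hTQ hσ) h hσρ.le
      have h3 : (σ : ℝ) ≤ pr (T.filter (fun q => q < σ)) := by exact_mod_cast h1
      have h4 : (0 : ℝ) ≤ pr (T.filter (fun q => q < σ)) := Nat.cast_nonneg _
      nlinarith
    · rw [not_le] at h
      have h1 : (σ : ℝ) ≤ 2 ^ ((k / 16 - 4) * i) := by exact_mod_cast h.le
      have h2 : (1 : ℝ) ≤ pr (T.filter (fun q => q < σ)) := by
        exact_mod_cast pr_pos fun q hq => hTpos q (Finset.filter_subset _ _ hq)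
      nlinarith

end Ctx

end Pool.Agent.K1H93.W
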