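import Mathlib

set_option autoImplicit false

/-! # Subset sums: extension of intervals -/

namespace Pool.Agent.K1H93.W

/-- `n` is a sum of distinct elements of `U`. -/
def SS (U : Finset ℕ) (n : ℕ) : Prop := ∃ s ⊆ U, ∑ x ∈ s, x = n

theorem SS.mono {U V : Finset ℕ} (h : U ⊆ V) {n : ℕ} (hn : SS U n) : SS V n := by
  obtain ⟨s, hs, e⟩ := hn
  exact ⟨s, hs.trans h, e⟩

theorem SS.add {U V : Finset ℕ} (h : Disjoint U V) {m n : ℕ} (hm : SS U m) (hn : SS V n) :
    SS (U ∪ V) (m + n) := by
  obtain ⟨s, hs, rfl⟩ := hm
  obtain ⟨t, ht, rfl⟩ := hn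
  refine ⟨s ∪ t, Finset.union_subset_union hs ht, ?_⟩
  rw [Finset.sum_union]
  exact Finset.disjoint_of_subset_left hs (Finset.disjoint_of_subset_right ht h)

/-- If the subset sums of `U` contain `[A, A + L]` and every `e ∈ E` is at most `L + 1` plus the sum of
the smaller elements of `E` then the subset sums of `U ∪ E` contain `[A, A + L + ∑ E]`. -/
theorem ext {U : Finset ℕ} {A L : ℕ} (hU : ∀ n, A ≤ n → n ≤ A + L → SS U n) (E : Finset ℕ)
    (hd : Disjoint U E)
    (hE : ∀ e ∈ E, e ≤ L + 1 + ∑ d ∈ E.filter (fun d => d < e), d) :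
    ∀ n, A ≤ n → n ≤ A + L + ∑ d ∈ E, d → SS (U ∪ E) n := by
  induction E using Finset.induction_on_max with
  | empty =>
    intro n h1 h2
    simp only [Finset.sum_empty, Finset.union_empty] at *
    exact hU n h1 (by omega)
  | insert a E ha ih =>
    have haE : a ∉ E := fun h => lt_irrefl _ (ha a h)
    have h0 : Disjoint U E := Finset.disjoint_of_subset_right (Finset.subset_insert _ _) hd
    have hEa : (insert a E).filter (fun d => d < a) = E := by
      ext x
      simp only [Finset.mem_filter, Finset.mem_insert]
      constructor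
      · rintro ⟨rfl | h, h'⟩
        · omega
        · exact h
      · intro h
        exact ⟨Or.inr h, ha x h⟩
    have h1 : a ≤ L + 1 + ∑ d ∈ E, d := by
      have := hE a (Finset.mem_insert_self _ _)
      rwa [hEa] at this
    have h2 : ∀ e ∈ E, e ≤ L + 1 + ∑ d ∈ E.filter (fun d => d < e), d := by
      intro e he
      have h3 := hE e (Finset.mem_insert_of_mem he)
      have h4 : (insert a E).filter (fun d => d < e) = E.filter (fun d => d < e) := by
        rw [Finset.filter_insert, if_neg]
        have := ha e he
        omega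
      rwa [h4] at h3
    have ih' := ih h0 h2
    have haU : Disjoint U {a} := by
      rw [Finset.disjoint_singleton_right]
      intro h
      exact (Finset.disjoint_left.1 hd h) (Finset.mem_insert_self _ _)
    intro n h3 h4
    rw [Finset.sum_insert haE] at h4
    by_cases h5 : n ≤ A + L + ∑ d ∈ E, d
    · exact (ih' n h3 h5).mono (Finset.union_subset_union_right (Finset.subset_insert _ _))
    · have h6 : a ≤ n := by omega
      have h7 : A ≤ n - a := by omega
      have h8 : n - a ≤ A + L + ∑ d ∈ E, d := by omega
      have h9 := (ih' (n - a) h7 h8).add (V := {a}) (n := a)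
        (by
          rw [Finset.disjoint_union_left]
          exact ⟨haU, by rwa [Finset.disjoint_singleton_right]⟩)
        ⟨{a}, subset_rfl, Finset.sum_singleton _ _⟩
      rw [Nat.sub_add_cancel h6] at h9
      refine h9.mono ?_
      intro x hx
      simp only [Finset.mem_union, Finset.mem_insert, Finset.mem_singleton] at *
      tauto

end Pool.Agent.K1H93.W
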