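import Pool.Agent.K1H93.W.Num

set_option autoImplicit false

/-! # Numerical inequalities, binomial coefficients -/

namespace Pool.Agent.K1H93.W

theorem choose_ge {u r c : ℕ} (hr : 0 < r) (h : c * r + r ≤ u) : c ^ r ≤ u.choose r := by
  have h1 : (u + 1 - r) ^ r ≤ r.factorial * u.choose r := by
    rw [← Nat.descFactorial_eq_factorial_mul_choose]
    exact Nat.pow_sub_le_descFactorial u r
  have h2 : (c * r) ^ r ≤ (u + 1 - r) ^ r := Nat.pow_le_pow_left (by omega) r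
  have h3 : r.factorial ≤ r ^ r := Nat.factorial_le_pow r
  have h4 : c ^ r * r ^ r ≤ u.choose r * r ^ r := by
    calc c ^ r * r ^ r = (c * r) ^ r := (Nat.mul_pow _ _ _).symm
      _ ≤ r.factorial * u.choose r := h2.trans h1
      _ ≤ r ^ r * u.choose r := Nat.mul_le_mul_right _ h3
      _ = u.choose r * r ^ r := Nat.mul_comm _ _
  exact Nat.le_of_mul_le_mul_right h4 (Nat.pow_pos hr)

/-- many `r`-element subsets -/
theorem choose_big (i : ℕ) (hi : 2 ^ 20 ≤ i) {k u r : ℕ} (hk : 2 ^ i ≤ k * i ^ 2) (hu : k ≤ 2 * u)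
    (hr2 : 2 ≤ r) (hr : r ≤ k / 16) : 2 ^ (i + r + 1) ≤ u.choose r := by
  have hbig := big i hi
  have hi0 : 0 < i := by omega
  rcases Nat.lt_or_ge i r with h | h
  · have h1 : 4 ^ r ≤ u.choose r := choose_ge (by omega) (by omega)
    refine le_trans ?_ h1
    rw [show (4 : ℕ) = 2 ^ 2 by norm_num, ← pow_mul]
    exact Nat.pow_le_pow_right (by norm_num) (by omega)
  · have h1 : 2 ^ (i / 2 + 2) * r + r ≤ u := by
      have e1 : (2 ^ (i / 2 + 2) * i + i) * 2 * i ^ 2 ≤ 2 ^ i := by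
        calc (2 ^ (i / 2 + 2) * i + i) * 2 * i ^ 2
            ≤ (2 ^ (i / 2 + 2) * i + 2 ^ (i / 2 + 2) * i) * 2 * i ^ 2 := by
              gcongr
              exact Nat.le_mul_of_pos_left _ (by positivity)
          _ = 16 * i ^ 3 * 2 ^ (i / 2) := by rw [pow_add]; ring
          _ ≤ i ^ 40 * 2 ^ (i / 2) := by
              apply Nat.mul_le_mul_right
              calc 16 * i ^ 3 ≤ i * i ^ 3 := Nat.mul_le_mul_right _ (by omega)
                _ = i ^ 4 := by ring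
                _ ≤ i ^ 40 := Nat.pow_le_pow_right hi0 (by norm_num)
          _ ≤ 2 ^ (i / 4) * 2 ^ (i / 2) := Nat.mul_le_mul_right _ hbig
          _ ≤ 2 ^ i := by
              rw [← pow_add]
              exact Nat.pow_le_pow_right (by norm_num) (by omega)
      have e2 : (2 ^ (i / 2 + 2) * i + i) * 2 ≤ k :=
        Nat.le_of_mul_le_mul_right (e1.trans hk) (by positivity)
      have e3 : 2 ^ (i / 2 + 2) * r ≤ 2 ^ (i / 2 + 2) * i := Nat.mul_le_mul_left _ h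
      omega
    refine le_trans ?_ (choose_ge (by omega) h1)
    rw [← pow_mul]
    apply Nat.pow_le_pow_right (by norm_num)
    calc i + r + 1 ≤ (i / 2) * 2 + 2 * r := by omega
      _ ≤ (i / 2) * r + 2 * r := by gcongr
      _ = (i / 2 + 2) * r := by ring

theorem k_big (i : ℕ) (hi : 2 ^ 20 ≤ i) {k : ℕ} (hk : 2 ^ i ≤ k * i ^ 2) : i ^ 38 ≤ k := by
  have hbig := big i hi
  have hi0 : 0 < i := by omega
  have h1 : i ^ 38 * i ^ 2 ≤ k * i ^ 2 := by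
    calc i ^ 38 * i ^ 2 = i ^ 40 := by ring
      _ ≤ 2 ^ (i / 4) := hbig
      _ ≤ 2 ^ i := Nat.pow_le_pow_right (by norm_num) (Nat.div_le_self _ _)
      _ ≤ k * i ^ 2 := hk
  exact Nat.le_of_mul_le_mul_right h1 (by positivity)

theorem R_big (i : ℕ) (hi : 2 ^ 20 ≤ i) {k : ℕ} (hk : 2 ^ i ≤ k * i ^ 2) : 1000 ≤ k / 16 := by
  have h1 := k_big i hi hk
  have h2 : i ≤ i ^ 38 := by
    calc i = i ^ 1 := (pow_one i).symm
      _ ≤ i ^ 38 := Nat.pow_le_pow_right (by omega) (by norm_num)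
  omega

/-- the exponents for the large primes -/
theorem exp_big (i j : ℕ) (hi : 2 ^ 20 ≤ i) {k : ℕ} (hk : 2 ^ i ≤ k * i ^ 2) (hji : 2 * j ≤ 3 * i) :
    (i + 1) * k + (j + 1) ≤ 30 * ((k / 16 - 4) * i) := by
  have hR := R_big i hi hk
  set R := k / 16 with hRdef
  have h1 : k ≤ 16 * R + 15 := by omega
  obtain ⟨R', hR'⟩ : ∃ R', R = R' + 4 := ⟨R - 4, by omega⟩
  have h2 : R - 4 = R' := by omega
  rw [h2]
  have h3 : k ≤ 16 * R' + 79 := by omega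
  have h4 : 996 ≤ R' := by omega
  have h5 : (i + 1) * k ≤ (i + 1) * (16 * R' + 79) := Nat.mul_le_mul_left _ h3
  have h6 : 996 * i ≤ R' * i := Nat.mul_le_mul_right _ h4
  have h7 : 2 ^ 20 * R' ≤ i * R' := Nat.mul_le_mul_right _ hi
  nlinarith

/-- `2 ^ (2 i) ≥ 2 ^ (j + 2) i ^ 2` -/
theorem sq_big (i j : ℕ) (hi : 2 ^ 20 ≤ i) (hji : 2 * j ≤ 3 * i) :
    2 ^ (j + 2) * i ^ 2 ≤ 2 ^ i * 2 ^ i := by
  have hbig := big i hi
  calc 2 ^ (j + 2) * i ^ 2 ≤ 2 ^ (j + 2) * i ^ 40 :=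
        Nat.mul_le_mul_left _ (Nat.pow_le_pow_right (by omega) (by norm_num))
    _ ≤ 2 ^ (j + 2) * 2 ^ (i / 4) := Nat.mul_le_mul_left _ hbig
    _ = 2 ^ (j + 2 + i / 4) := (pow_add _ _ _).symm
    _ ≤ 2 ^ (i + i) := Nat.pow_le_pow_right (by norm_num) (by omega)
    _ = 2 ^ i * 2 ^ i := pow_add _ _ _

/-- `2 ^ (2 j) ≥ 2 ^ (2 i + 2) j ^ 2` -/
theorem j_big (i j : ℕ) (hi : 2 ^ 20 ≤ i) (hij : i + Nat.log 2 i + 5 ≤ j) (hji : 2 * j ≤ 3 * i) :
    2 ^ (2 * i + 2) * j ^ 2 ≤ 2 ^ j * 2 ^ j := by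
  have h1 : i < 2 ^ (Nat.log 2 i + 1) := Nat.lt_pow_succ_log_self (by norm_num) i
  have h2 : 2 * j ≤ 2 ^ (j - i) := by
    calc 2 * j ≤ 4 * 2 ^ (Nat.log 2 i + 1) := by omega
      _ = 2 ^ (Nat.log 2 i + 3) := by rw [show (4 : ℕ) = 2 ^ 2 by norm_num, ← pow_add]; congr 1; ring
      _ ≤ 2 ^ (j - i) := Nat.pow_le_pow_right (by norm_num) (by omega)
  have h3 : 2 ^ j = 2 ^ i * 2 ^ (j - i) := by
    rw [← pow_add]
    congr 1
    omega
  calc 2 ^ (2 * i + 2) * j ^ 2 = (2 ^ i * 2 ^ i) * ((2 * j) * (2 * j)) := by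
        rw [pow_add, two_mul, pow_add]; ring
    _ ≤ (2 ^ i * 2 ^ i) * (2 ^ (j - i) * 2 ^ (j - i)) :=
        Nat.mul_le_mul_left _ (Nat.mul_le_mul h2 h2)
    _ = 2 ^ j * 2 ^ j := by rw [h3]; ring

end Pool.Agent.K1H93.W
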