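import Pool.Agent.K1H93.W.Chain

set_option autoImplicit false

/-! # Weights of the dyadic blocks -/

namespace Pool.Agent.K1H93.W

open Finset

/-- weight of a dyadic block -/
noncomputable def wt (PP : Finset ℕ) (t : ℕ) : ℝ := ∑ p ∈ Pb PP t, (1 : ℝ) / p

/-- weight of the primes below `2 ^ b` -/
noncomputable def Wt (PP : Finset ℕ) (b : ℕ) : ℝ := ∑ p ∈ PP.filter (fun p => p < 2 ^ b), (1 : ℝ) / p

/-- dense blocks -/
def dense (PP : Finset ℕ) (t : ℕ) : Prop := 2 ^ t ≤ (Pb PP t).card * t ^ 2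

theorem wt_nonneg (PP : Finset ℕ) (t : ℕ) : 0 ≤ wt PP t :=
  Finset.sum_nonneg fun _ _ => by positivity

theorem Wt_succ (PP : Finset ℕ) (b : ℕ) : Wt PP (b + 1) = Wt PP b + wt PP b := by
  unfold Wt wt
  rw [← Finset.sum_union]
  · apply Finset.sum_congr _ (fun _ _ => rfl)
    ext p
    simp only [Pb, Finset.mem_filter, Finset.mem_union]
    have : 2 ^ b ≤ 2 ^ (b + 1) := Nat.pow_le_pow_right (by norm_num) (Nat.le_succ _)
    constructor
    · rintro ⟨h1, h2⟩
      rcases Nat.lt_or_ge p (2 ^ b) with h | h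
      · exact Or.inl ⟨h1, h⟩
      · exact Or.inr ⟨h1, h, h2⟩
    · rintro (⟨h1, h2⟩ | ⟨h1, h2, h3⟩)
      · exact ⟨h1, by omega⟩
      · exact ⟨h1, h3⟩
  · rw [Finset.disjoint_left]
    intro p hp hp2
    have h1 := (Finset.mem_filter.1 hp).2
    have h2 := (Pb_mem hp2).1
    omega

theorem Wt_sub (PP : Finset ℕ) (a b : ℕ) (h : a ≤ b) :
    Wt PP b - Wt PP a = ∑ t ∈ Finset.Ico a b, wt PP t := by
  induction b, h using Nat.le_induction with
  | base => simp
  | succ b hb ih => rw [Finset.sum_Ico_succ_top hb, ← ih, Wt_succ]; ring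

theorem cheb (PP : Finset ℕ) (hPP : ∀ p ∈ PP, p.Prime) (t : ℕ) : t * (Pb PP t).card ≤ 4 * 2 ^ t := by
  have h1 : pr (Pb PP t) ≤ primorial (2 ^ (t + 1)) := by
    unfold primorial
    apply Nat.le_of_dvd (Finset.prod_pos fun p hp => (Finset.mem_filter.1 hp).2.pos)
    apply Finset.prod_dvd_prod_of_subset
    intro p hp
    rw [Finset.mem_filter, Finset.mem_range]
    have := (Pb_mem hp).2
    exact ⟨by omega, hPP p (Pb_sub _ _ hp)⟩
  have h2 := primorial_le_four_pow (2 ^ (t + 1))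
  have h3 : 2 ^ (t * (Pb PP t).card) ≤ 2 ^ (4 * 2 ^ t) := by
    calc 2 ^ (t * (Pb PP t).card) ≤ pr (Pb PP t) := pr_block_ge subset_rfl rfl
      _ ≤ 4 ^ (2 ^ (t + 1)) := h1.trans h2
      _ = 2 ^ (4 * 2 ^ t) := by
          rw [show (4 : ℕ) ^ (2 ^ (t + 1)) = (2 ^ 2) ^ (2 ^ (t + 1)) by norm_num, ← pow_mul]
          congr 1
          ring
  exact (Nat.pow_le_pow_iff_right (by norm_num)).1 h3

theorem wt_le_card (PP : Finset ℕ) (t : ℕ) : wt PP t ≤ (Pb PP t).card / 2 ^ t := by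
  unfold wt
  calc ∑ p ∈ Pb PP t, (1 : ℝ) / p ≤ ∑ p ∈ Pb PP t, (1 : ℝ) / 2 ^ t := by
        apply Finset.sum_le_sum
        intro p hp
        apply one_div_le_one_div_of_le (by positivity)
        exact_mod_cast (Pb_mem hp).1
    _ = (Pb PP t).card / 2 ^ t := by rw [Finset.sum_const, nsmul_eq_mul]; ring

theorem wt_le (PP : Finset ℕ) (hPP : ∀ p ∈ PP, p.Prime) {t : ℕ} (ht : 0 < t) : wt PP t ≤ 4 / t := by
  refine (wt_le_card PP t).trans ?_
  have h1 := cheb PP hPP t
  have ht' : (0 : ℝ) < t := by exact_mod_cast ht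
  rw [div_le_div_iff₀ (by positivity) ht']
  have h2 : ((t * (Pb PP t).card : ℕ) : ℝ) ≤ ((4 * 2 ^ t : ℕ) : ℝ) := by exact_mod_cast h1
  push_cast at h2
  linarith

theorem wt_nondense (PP : Finset ℕ) {t : ℕ} (ht : 0 < t) (h : ¬ dense PP t) :
    wt PP t ≤ 1 / (t : ℝ) ^ 2 := by
  refine (wt_le_card PP t).trans ?_
  unfold dense at h
  rw [not_le] at h
  have ht' : (0 : ℝ) < t := by exact_mod_cast ht
  rw [div_le_div_iff₀ (by positivity) (by positivity)]
  have h2 : (((Pb PP t).card * t ^ 2 : ℕ) : ℝ) ≤ ((2 ^ t : ℕ) : ℝ) := by exact_mod_cast h.le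
  push_cast at h2
  linarith

theorem sum_sq_le (a b : ℕ) (ha : 0 < a) :
    ∑ t ∈ Finset.Ico a b, (1 : ℝ) / (t : ℝ) ^ 2 ≤ 2 / a := by
  rcases Nat.lt_or_ge b a with h | h
  · rw [Finset.Ico_eq_empty (by omega), Finset.sum_empty]; positivity
  · have key : ∑ t ∈ Finset.Ico a b, (1 : ℝ) / (t : ℝ) ^ 2 ≤ 2 / a - 2 / b := by
      induction b, h using Nat.le_induction with
      | base => simp
      | succ b hb ih =>
        rw [Finset.sum_Ico_succ_top hb]
        have hb0 : (0 : ℝ) < b := by exact_mod_cast (by omega : 0 < b)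
        have hb1 : (1 : ℝ) ≤ b := by exact_mod_cast (by omega : 1 ≤ b)
        have h1 : (1 : ℝ) / (b : ℝ) ^ 2 ≤ 2 / b - 2 / (b + 1) := by
          rw [div_sub_div _ _ hb0.ne' (by positivity), div_le_div_iff₀ (by positivity) (by positivity)]
          nlinarith
        push_cast
        linarith
    have hb0 : (0 : ℝ) ≤ 2 / b := by positivity
    linarith

/-- `4 (log s + 5) / s ≤ 1 / (4 √s)` -/
theorem log_bound {s : ℕ} (hs : 2 ^ 20 ≤ s) :
    4 * ((Nat.log 2 s + 5 : ℕ) : ℝ) / s ≤ (1 / 4) / √(s : ℝ) := by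
  have h1 := log_sq s hs
  have hs0 : (0 : ℝ) < s := by exact_mod_cast (by omega : 0 < s)
  have h2 : 16 * ((Nat.log 2 s + 5 : ℕ) : ℝ) ≤ √(s : ℝ) := by
    apply Real.le_sqrt_of_sq_le
    have h3 : (((16 * (Nat.log 2 s + 5)) ^ 2 : ℕ) : ℝ) ≤ (s : ℝ) := by exact_mod_cast h1
    push_cast at h3 ⊢
    exact h3
  have h4 : 0 < √(s : ℝ) := Real.sqrt_pos.2 hs0
  have h5 : √(s : ℝ) * √(s : ℝ) = s := Real.mul_self_sqrt hs0.le
  rw [div_le_div_iff₀ hs0 h4]
  nlinarith

/-- no good pair of dense blocks in `[a, b)`: little weight in the dense blocks -/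
theorem no_pair (PP : Finset ℕ) (hPP : ∀ p ∈ PP, p.Prime) (b : ℕ) : ∀ n a : ℕ, b ≤ a + n →
    2 ^ 20 ≤ a →
    (∀ i j, a ≤ i → j < b → dense PP i → dense PP j → i + Nat.log 2 i + 5 ≤ j → ¬ (2 * j ≤ 3 * i)) →
    (haveI := Classical.decPred (dense PP)
     ∑ t ∈ (Finset.Ico a b).filter (dense PP), wt PP t) ≤ 2 / √(a : ℝ) := by
  classical
  intro n
  induction n using Nat.strong_induction_on with
  | _ n ih =>
    intro a hab ha hno
    have ha0 : (0 : ℝ) < a := by exact_mod_cast (by omega : 0 < a)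
    by_cases hne : ((Finset.Ico a b).filter (dense PP)).Nonempty
    · obtain ⟨s, hs⟩ : ∃ s, s = ((Finset.Ico a b).filter (dense PP)).min' hne := ⟨_, rfl⟩
      have hsmem : s ∈ (Finset.Ico a b).filter (dense PP) := by
        rw [hs]; exact Finset.min'_mem _ _
      have hsmin : ∀ t ∈ (Finset.Ico a b).filter (dense PP), s ≤ t := by
        intro t ht
        rw [hs]; exact Finset.min'_le _ _ ht
      rw [Finset.mem_filter, Finset.mem_Ico] at hsmem
      have hs20 : 2 ^ 20 ≤ s := ha.trans hsmem.1.1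
      have hs0 : (0 : ℝ) < s := by exact_mod_cast (by omega : 0 < s)
      have hsub : (Finset.Ico a b).filter (dense PP) ⊆
          Finset.Ico s (s + (Nat.log 2 s + 5)) ∪ (Finset.Ico (3 * s / 2 + 1) b).filter (dense PP) := by
        intro t ht
        have h1 := hsmin t ht
        rw [Finset.mem_filter, Finset.mem_Ico] at ht
        rw [Finset.mem_union, Finset.mem_Ico, Finset.mem_filter, Finset.mem_Ico]
        by_cases h2 : t < s + (Nat.log 2 s + 5)
        · exact Or.inl ⟨h1, h2⟩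
        · have h3 := hno s t hsmem.1.1 ht.1.2 hsmem.2 ht.2 (by omega)
          exact Or.inr ⟨⟨by omega, ht.1.2⟩, ht.2⟩
      have hsum : ∑ t ∈ (Finset.Ico a b).filter (dense PP), wt PP t ≤
          ∑ t ∈ Finset.Ico s (s + (Nat.log 2 s + 5)), wt PP t +
          ∑ t ∈ (Finset.Ico (3 * s / 2 + 1) b).filter (dense PP), wt PP t := by
        refine (Finset.sum_le_sum_of_subset_of_nonneg hsub fun _ _ _ => wt_nonneg _ _).trans ?_
        have := Finset.sum_union_inter (s₁ := Finset.Ico s (s + (Nat.log 2 s + 5)))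
          (s₂ := (Finset.Ico (3 * s / 2 + 1) b).filter (dense PP)) (f := wt PP)
        have h4 : 0 ≤ ∑ t ∈ Finset.Ico s (s + (Nat.log 2 s + 5)) ∩
          (Finset.Ico (3 * s / 2 + 1) b).filter (dense PP), wt PP t :=
          Finset.sum_nonneg fun _ _ => wt_nonneg _ _
        linarith
      have h5 : ∑ t ∈ Finset.Ico s (s + (Nat.log 2 s + 5)), wt PP t ≤ (1 / 4) / √(s : ℝ) := by
        refine le_trans ?_ (log_bound hs20)
        calc ∑ t ∈ Finset.Ico s (s + (Nat.log 2 s + 5)), wt PP t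
            ≤ ∑ t ∈ Finset.Ico s (s + (Nat.log 2 s + 5)), (4 : ℝ) / s := by
              apply Finset.sum_le_sum
              intro t ht
              rw [Finset.mem_Ico] at ht
              refine (wt_le PP hPP (by omega)).trans ?_
              apply div_le_div_of_nonneg_left (by norm_num) hs0
              exact_mod_cast ht.1
          _ = 4 * ((Nat.log 2 s + 5 : ℕ) : ℝ) / s := by
              rw [Finset.sum_const, Nat.card_Ico, nsmul_eq_mul, Nat.add_sub_cancel_left]; ring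
      have h6 : ∑ t ∈ (Finset.Ico (3 * s / 2 + 1) b).filter (dense PP), wt PP t ≤
          2 / √((3 * s / 2 + 1 : ℕ) : ℝ) := by
        by_cases h7 : 3 * s / 2 + 1 ≤ b
        · apply ih (b - (3 * s / 2 + 1)) (by omega) _ (by omega) (by omega)
          intro i j hi
          exact hno i j (by omega)
        · rw [Finset.Ico_eq_empty (by omega), Finset.filter_empty, Finset.sum_empty]
          positivity
      have h8 : 2 / √((3 * s / 2 + 1 : ℕ) : ℝ) ≤ (7 / 4) / √(s : ℝ) := by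
        have h9 : (8 / 7) * √(s : ℝ) ≤ √((3 * s / 2 + 1 : ℕ) : ℝ) := by
          apply Real.le_sqrt_of_sq_le
          rw [mul_pow, Real.sq_sqrt hs0.le]
          have h10 : 3 * s ≤ 2 * (3 * s / 2 + 1) := by omega
          have h11 : (3 * s : ℝ) ≤ 2 * ((3 * s / 2 + 1 : ℕ) : ℝ) := by exact_mod_cast h10
          nlinarith
        have h12 : 0 < √(s : ℝ) := Real.sqrt_pos.2 hs0
        rw [div_le_div_iff₀ (by nlinarith) h12]
        nlinarith
      have h13 : 2 / √(s : ℝ) ≤ 2 / √(a : ℝ) := by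
        apply div_le_div_of_nonneg_left (by norm_num) (Real.sqrt_pos.2 ha0)
        exact Real.sqrt_le_sqrt (by exact_mod_cast hsmem.1.1)
      have h14 : (1 / 4) / √(s : ℝ) + (7 / 4) / √(s : ℝ) = 2 / √(s : ℝ) := by ring
      linarith
    · rw [Finset.not_nonempty_iff_eq_empty] at hne
      rw [hne, Finset.sum_empty]
      positivity

/-- enough weight in `[a, b)` gives a good pair -/
theorem exists_pair (PP : Finset ℕ) (hPP : ∀ p ∈ PP, p.Prime) (a b : ℕ) (ha : 2 ^ 20 ≤ a)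
    (hw : 2 / √(a : ℝ) + 2 / a < ∑ t ∈ Finset.Ico a b, wt PP t) :
    ∃ i j, a ≤ i ∧ j < b ∧ dense PP i ∧ dense PP j ∧ i + Nat.log 2 i + 5 ≤ j ∧ 2 * j ≤ 3 * i := by
  classical
  by_contra hcon
  push Not at hcon
  have h1 := no_pair PP hPP b b a (by omega) ha (by
    intro i j h1 h2 h3 h4 h5 h6
    have := hcon i j h1 h2 h3 h4 h5
    omega)
  have h2 : ∑ t ∈ (Finset.Ico a b).filter (fun t => ¬ dense PP t), wt PP t ≤ 2 / a := by
    calc ∑ t ∈ (Finset.Ico a b).filter (fun t => ¬ dense PP t), wt PP t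
        ≤ ∑ t ∈ (Finset.Ico a b).filter (fun t => ¬ dense PP t), (1 : ℝ) / (t : ℝ) ^ 2 := by
          apply Finset.sum_le_sum
          intro t ht
          rw [Finset.mem_filter, Finset.mem_Ico] at ht
          exact wt_nondense PP (by omega) ht.2
      _ ≤ ∑ t ∈ Finset.Ico a b, (1 : ℝ) / (t : ℝ) ^ 2 :=
          Finset.sum_le_sum_of_subset_of_nonneg (Finset.filter_subset _ _)
            fun _ _ _ => by positivity
      _ ≤ 2 / a := sum_sq_le a b (by omega)
  have h3 := Finset.sum_filter_add_sum_filter_not (Finset.Ico a b) (dense PP) (wt PP)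
  linarith

end Pool.Agent.K1H93.W
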