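import Pool.Agent.K1H93.W.Sel

set_option autoImplicit false

/-! # Selection of a good initial segment of a set of primes -/

namespace Pool.Agent.K1H93.W

theorem Pb_filter (PP : Finset ℕ) {b t : ℕ} (h : t < b) :
    Pb (PP.filter (fun p => p < 2 ^ b)) t = Pb PP t := by
  ext p
  simp only [Pb, Finset.mem_filter]
  constructor
  · rintro ⟨⟨h1, _⟩, h2⟩
    exact ⟨h1, h2⟩
  · rintro ⟨h1, h2⟩
    have : 2 ^ (t + 1) ≤ 2 ^ b := Nat.pow_le_pow_right (by norm_num) h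
    exact ⟨⟨h1, by omega⟩, h2⟩

theorem real_part {a b c : ℕ} (hc20 : 2 ^ 20 ≤ c) (hca : 4 * c ≤ a) (hac : a ≤ 8 * c) (ha2 : a < b)
    {x y : ℝ} (h1 : 4 / √(c : ℝ) - 4 / √(b : ℝ) < y + x) (h3 : y ≤ 2 / c) : 3 / √(a : ℝ) ≤ x := by
  have hcR : (0 : ℝ) < c := by exact_mod_cast (by omega : 0 < c)
  have haR : (0 : ℝ) < a := by exact_mod_cast (by omega : 0 < a)
  have hsc : 0 < √(c : ℝ) := Real.sqrt_pos.2 hcR
  have hsa : 0 < √(a : ℝ) := Real.sqrt_pos.2 haR
  have h4 : 8 / √(a : ℝ) ≤ 4 / √(c : ℝ) := by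
    have : 2 * √(c : ℝ) ≤ √(a : ℝ) := by
      apply Real.le_sqrt_of_sq_le
      rw [mul_pow, Real.sq_sqrt hcR.le]
      have : ((4 * c : ℕ) : ℝ) ≤ a := by exact_mod_cast hca
      push_cast at this
      linarith
    rw [div_le_div_iff₀ hsa hsc]
    linarith
  have h5 : 4 / √(b : ℝ) ≤ 4 / √(a : ℝ) := by
    apply div_le_div_of_nonneg_left (by norm_num) hsa
    exact Real.sqrt_le_sqrt (by exact_mod_cast ha2.le)
  have h7 : (2 : ℝ) / c ≤ 16 / a := by
    rw [div_le_div_iff₀ hcR haR]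
    have : (a : ℝ) ≤ ((8 * c : ℕ) : ℝ) := by exact_mod_cast hac
    push_cast at this
    linarith
  have h8 : (16 : ℝ) ≤ √(a : ℝ) := by
    apply Real.le_sqrt_of_sq_le
    have : ((256 : ℕ) : ℝ) ≤ a := by exact_mod_cast (by omega : 256 ≤ a)
    norm_num at this ⊢
    linarith
  have h9 : (16 : ℝ) / a = (16 / √(a : ℝ)) / √(a : ℝ) := by
    rw [div_div, Real.mul_self_sqrt haR.le]
  have h9' : 16 / √(a : ℝ) ≤ 1 := by
    rw [div_le_one hsa]
    exact h8
  have h6 : (16 : ℝ) / a ≤ 1 / √(a : ℝ) := by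
    rw [h9]
    exact div_le_div_of_nonneg_right h9' hsa.le
  have h10 : 3 / √(a : ℝ) = 8 / √(a : ℝ) - 4 / √(a : ℝ) - 1 / √(a : ℝ) := by ring
  linarith

theorem not_dense_small (t k : ℕ) (ht : 2 ^ 20 ≤ t) (hk : k < 256) : ¬ (2 ^ t ≤ k * t ^ 2) := by
  intro hd
  have h6 := big t ht
  have h7 : 2 ^ (t / 4) ≤ 2 ^ t := Nat.pow_le_pow_right (by norm_num) (Nat.div_le_self _ _)
  have ht0 : 0 < t := by omega
  have ht256 : 256 ≤ t := by omega
  have h8 : k * t ^ 2 < 256 * t ^ 2 := Nat.mul_lt_mul_of_pos_right hk (by positivity)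
  have h9 : 256 * t ^ 2 ≤ t * t ^ 2 := Nat.mul_le_mul_right _ ht256
  have h10 : t * t ^ 2 = t ^ 3 := by ring
  have h11 : t ^ 3 ≤ t ^ 40 := Nat.pow_le_pow_right ht0 (by norm_num)
  omega

theorem two_div_sqrt_gt {a : ℕ} (ha : 2 ^ 20 ≤ a) {x : ℝ} (hx : 3 / √(a : ℝ) ≤ x) :
    2 / √(a : ℝ) + 2 / a < x := by
  have ha0 : (0 : ℝ) < a := by exact_mod_cast (by omega : 0 < a)
  have h1 : 0 < √(a : ℝ) := Real.sqrt_pos.2 ha0
  have h2 : (1024 : ℝ) ≤ √(a : ℝ) := by
    apply Real.le_sqrt_of_sq_le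
    have : ((2 ^ 20 : ℕ) : ℝ) ≤ a := by exact_mod_cast ha
    norm_num at this ⊢
    linarith
  have h3 : (2 : ℝ) / a = (2 / √(a : ℝ)) / √(a : ℝ) := by
    rw [div_div, Real.mul_self_sqrt ha0.le]
  have h4 : (2 : ℝ) / a < 1 / √(a : ℝ) := by
    rw [h3, div_lt_div_iff_of_pos_right h1, div_lt_iff₀ h1]
    linarith
  have h5 : 3 / √(a : ℝ) = 2 / √(a : ℝ) + 1 / √(a : ℝ) := by ring
  linarith

/-- The weight condition for all small `x`. -/
theorem H1_of (PP : Finset ℕ) (b i : ℕ) (hi : 2 ^ 20 ≤ i) (hib : i < b)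
    (hW : ∀ b', 1 ≤ b' → b' < b → 4 / √(b' : ℝ) - 4 / √(b : ℝ) < Wt PP b - Wt PP b')
    (x : ℕ) (hx1 : 1 ≤ x) (hx2 : x < 4 * i ^ 2) :
    (1 : ℝ) / x ≤ ∑ q ∈ (PP.filter (fun p => p < 2 ^ b)).filter (fun q => x < q), (1 : ℝ) / q := by
  set b' := Nat.log 2 x + 1 with hb'
  have hxb : x < 2 ^ b' := Nat.lt_pow_succ_log_self (by norm_num) x
  have hb'x : b' ≤ x := by
    have h1 : 2 ^ Nat.log 2 x ≤ x := Nat.pow_log_le_self 2 (by omega)
    have h2 : Nat.log 2 x < 2 ^ Nat.log 2 x := Nat.lt_two_pow_self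
    omega
  have hb16 : 16 * b' ≤ b := by
    have h1 : i < 2 ^ (Nat.log 2 i + 1) := Nat.lt_pow_succ_log_self (by norm_num) i
    have h2 : x < 2 ^ (2 * Nat.log 2 i + 4) := by
      calc x < 4 * i ^ 2 := hx2
        _ ≤ 4 * (2 ^ (Nat.log 2 i + 1)) ^ 2 := by gcongr
        _ = 2 ^ (2 * Nat.log 2 i + 4) := by
            rw [← pow_mul, show (4 : ℕ) = 2 ^ 2 by norm_num, ← pow_add]
            congr 1
            ring
    have h3 : Nat.log 2 x < 2 * Nat.log 2 i + 4 := Nat.log_lt_of_lt_pow (by omega) h2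
    have h4 := log_sq i hi
    have h5 : 16 * b' ≤ 2 * (16 * (Nat.log 2 i + 5)) := by omega
    have h6 : 2 * (16 * (Nat.log 2 i + 5)) ≤ (16 * (Nat.log 2 i + 5)) ^ 2 := by nlinarith
    omega
  have hb'0 : 1 ≤ b' := by omega
  have h1 := hW b' hb'0 (by omega)
  have hb'R : (1 : ℝ) ≤ b' := by exact_mod_cast hb'0
  have hs1 : 1 ≤ √(b' : ℝ) := Real.one_le_sqrt.2 hb'R
  have h2 : 4 / √(b : ℝ) ≤ 1 / √(b' : ℝ) := by
    have h3 : 4 * √(b' : ℝ) ≤ √(b : ℝ) := by
      apply Real.le_sqrt_of_sq_le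
      rw [mul_pow, Real.sq_sqrt (by positivity)]
      have : ((16 * b' : ℕ) : ℝ) ≤ b := by exact_mod_cast hb16
      push_cast at this
      linarith
    rw [div_le_div_iff₀ (by nlinarith) (by positivity)]
    linarith
  have h3 : (1 : ℝ) / x ≤ 3 / √(b' : ℝ) := by
    have hx0 : (0 : ℝ) < x := by exact_mod_cast (by omega : 0 < x)
    have h4 : √(b' : ℝ) ≤ x := by
      have h5 : √(b' : ℝ) ≤ b' := by
        rw [Real.sqrt_le_left (by positivity)]
        nlinarith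
      exact h5.trans (by exact_mod_cast hb'x)
    rw [div_le_div_iff₀ hx0 (by positivity)]
    linarith
  have h4 : Wt PP b - Wt PP b' ≤
      ∑ q ∈ (PP.filter (fun p => p < 2 ^ b)).filter (fun q => x < q), (1 : ℝ) / q := by
    unfold Wt
    rw [sub_le_iff_le_add, ← sub_le_iff_le_add']
    rw [sub_le_iff_le_add, add_comm]
    refine le_trans ?_ (Finset.sum_union_inter (s₁ := (PP.filter (fun p => p < 2 ^ b)).filter
      (fun q => x < q)) (s₂ := PP.filter (fun p => p < 2 ^ b')) (f := fun q => (1 : ℝ) / q)).le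
    have h5 : 0 ≤ ∑ q ∈ (PP.filter (fun p => p < 2 ^ b)).filter (fun q => x < q) ∩
        PP.filter (fun p => p < 2 ^ b'), (1 : ℝ) / q := Finset.sum_nonneg fun _ _ => by positivity
    refine le_trans ?_ (le_add_of_nonneg_right h5)
    apply Finset.sum_le_sum_of_subset_of_nonneg
    · intro q hq
      rw [Finset.mem_filter] at hq
      simp only [Finset.mem_union, Finset.mem_filter]
      rcases Nat.lt_or_ge x q with h | h
      · exact Or.inl ⟨hq, h⟩
      · exact Or.inr ⟨hq.1, by omega⟩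
    · intro _ _ _
      positivity
  have h5 : 3 / √(b' : ℝ) = 4 / √(b' : ℝ) - 1 / √(b' : ℝ) := by ring
  linarith

theorem select : ∃ K : ℝ, ∀ PP : Finset ℕ, (∀ p ∈ PP, p.Prime) →
    K ≤ ∑ p ∈ PP, (1 : ℝ) / p →
    ∃ b i j, Ctx (PP.filter (fun p => p < 2 ^ b)) i j ∧ 10 ≤ Wt PP b := by
  classical
  obtain ⟨b0, hb0⟩ : ∃ b0 : ℕ, 2 ^ 33 ≤ b0 := ⟨_, le_rfl⟩
  obtain ⟨a0, ha0⟩ : ∃ a0 : ℕ, a0 = 2 ^ 23 := ⟨_, rfl⟩
  refine ⟨20 + ∑ n ∈ Finset.range (2 ^ b0), (1 : ℝ) / n, ?_⟩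
  intro PP hPP hK
  set S0 := ∑ n ∈ Finset.range (2 ^ b0), (1 : ℝ) / n with hS0
  have hS0nn : 0 ≤ S0 := Finset.sum_nonneg fun _ _ => by positivity
  -- the minimal `b`
  have hex : ∃ b : ℕ, 1 ≤ b ∧ 20 + S0 - 4 / √(b : ℝ) ≤ Wt PP b := by
    refine ⟨∑ p ∈ PP, p + 1, by omega, ?_⟩
    have h1 : PP.filter (fun p => p < 2 ^ (∑ p ∈ PP, p + 1)) = PP := by
      apply Finset.filter_true_of_mem
      intro p hp
      have h2 : p ≤ ∑ p ∈ PP, p := Finset.single_le_sum (f := fun p : ℕ => p) (fun _ _ => Nat.zero_le _) hp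
      calc p < 2 ^ p := Nat.lt_two_pow_self
        _ ≤ 2 ^ (∑ p ∈ PP, p + 1) := Nat.pow_le_pow_right (by norm_num) (by omega)
    unfold Wt
    rw [h1]
    have : 0 ≤ 4 / √((∑ p ∈ PP, p + 1 : ℕ) : ℝ) := by positivity
    linarith
  obtain ⟨b, ⟨hb1, hbW⟩, hbmin⟩ : ∃ b : ℕ, (1 ≤ b ∧ 20 + S0 - 4 / √(b : ℝ) ≤ Wt PP b) ∧
      ∀ b' : ℕ, b' < b → ¬ (1 ≤ b' ∧ 20 + S0 - 4 / √(b' : ℝ) ≤ Wt PP b') :=
    ⟨Nat.find hex, Nat.find_spec hex, fun b' h => Nat.find_min hex h⟩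
  have hb4 : 4 / √(b : ℝ) ≤ 4 := by
    have : 1 ≤ √(b : ℝ) := Real.one_le_sqrt.2 (by exact_mod_cast hb1)
    rw [div_le_iff₀ (by positivity)]
    linarith
  have hbig : b0 < b := by
    by_contra h
    rw [not_lt] at h
    have h1 : Wt PP b ≤ S0 := by
      unfold Wt
      apply Finset.sum_le_sum_of_subset_of_nonneg
      · intro p hp
        rw [Finset.mem_filter] at hp
        rw [Finset.mem_range]
        exact lt_of_lt_of_le hp.2 (Nat.pow_le_pow_right (by norm_num) h)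
      · intro _ _ _
        positivity
    linarith
  have hW : ∀ b', 1 ≤ b' → b' < b → 4 / √(b' : ℝ) - 4 / √(b : ℝ) < Wt PP b - Wt PP b' := by
    intro b' h1 h2
    have h3 := hbmin b' h2
    have h4 : Wt PP b' < 20 + S0 - 4 / √(b' : ℝ) := by
      by_contra h
      exact h3 ⟨h1, not_lt.1 h⟩
    linarith
  have hbpos : (0 : ℝ) < b := by exact_mod_cast hb1
  -- the last break
  set Br : Finset ℕ := (Finset.Ico a0 b).filter (fun a => (Pb PP a).Nonempty ∧
    pr (PP.filter (fun p => p < 2 ^ a)) < 2 ^ (32 * (a + 1))) with hBr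
  have hmain : ∃ a, a0 ≤ a ∧ a < b ∧ 3 / √(a : ℝ) ≤ ∑ t ∈ Finset.Ico a b, wt PP t ∧
      ∀ t ∈ Br, t ≤ a := by
    by_cases hne : Br.Nonempty
    · set a := Br.max' hne with hadef
      have haBr : a ∈ Br := Finset.max'_mem _ _
      have hmax : ∀ t ∈ Br, t ≤ a := fun t ht => Finset.le_max' _ _ ht
      rw [hBr, Finset.mem_filter, Finset.mem_Ico] at haBr
      obtain ⟨⟨ha1, ha2⟩, -, ha3⟩ := haBr
      refine ⟨a, ha1, ha2, ?_, hmax⟩
      set c := a / 4 with hc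
      have hc20 : 2 ^ 20 ≤ c := by omega
      have hca : 4 * c ≤ a := by omega
      have hac : a ≤ 8 * c := by omega
      have h1 := hW c (by omega) (by omega)
      rw [Wt_sub PP c b (by omega), ← Finset.sum_Ico_consecutive _ (show c ≤ a by omega) ha2.le] at h1
      have h2 : ∀ t ∈ Finset.Ico c a, ¬ dense PP t := by
        intro t ht hd
        rw [Finset.mem_Ico] at ht
        have h3 : 2 ^ (t * (Pb PP t).card) < 2 ^ (32 * (a + 1)) := by
          refine lt_of_le_of_lt ?_ ha3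
          calc 2 ^ (t * (Pb PP t).card) ≤ pr (Pb PP t) := pr_block_ge subset_rfl rfl
            _ ≤ pr (PP.filter (fun p => p < 2 ^ a)) := by
                apply pr_mono
                · intro p hp
                  rw [Finset.mem_filter]
                  refine ⟨Pb_sub _ _ hp, lt_of_lt_of_le (Pb_mem hp).2 ?_⟩
                  exact Nat.pow_le_pow_right (by norm_num) (by omega)
                · intro p hp
                  exact (hPP p (Finset.filter_subset _ _ hp)).pos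
        have h4 : t * (Pb PP t).card < 32 * (a + 1) := (Nat.pow_lt_pow_iff_right (by norm_num)).1 h3
        have h5 : (Pb PP t).card < 256 := by
          by_contra h
          have : t * 256 ≤ t * (Pb PP t).card := Nat.mul_le_mul_left _ (by omega)
          omega
        exact not_dense_small t _ (hc20.trans ht.1) h5 hd
      have h3 : ∑ t ∈ Finset.Ico c a, wt PP t ≤ 2 / c := by
        refine le_trans ?_ (sum_sq_le c a (by omega))
        apply Finset.sum_le_sum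
        intro t ht
        have := Finset.mem_Ico.1 ht
        exact wt_nondense PP (by omega) (h2 t ht)
      exact real_part hc20 hca hac ha2 h1 h3
    · rw [Finset.not_nonempty_iff_eq_empty] at hne
      refine ⟨a0, le_rfl, by omega, ?_, by rw [hne]; simp⟩
      have h1 := hW a0 (by omega) (by omega)
      rw [Wt_sub PP a0 b (by omega)] at h1
      have haR : (0 : ℝ) < a0 := by exact_mod_cast (by omega : 0 < a0)
      have hsa : 0 < √(a0 : ℝ) := Real.sqrt_pos.2 haR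
      have h5 : 4 / √(b : ℝ) ≤ 1 / √(a0 : ℝ) := by
        have : 4 * √(a0 : ℝ) ≤ √(b : ℝ) := by
          apply Real.le_sqrt_of_sq_le
          rw [mul_pow, Real.sq_sqrt haR.le]
          have : ((16 * a0 : ℕ) : ℝ) ≤ b := by exact_mod_cast (by omega : 16 * a0 ≤ b)
          push_cast at this
          linarith
        rw [div_le_div_iff₀ (by linarith) hsa]
        linarith
      have h10 : 3 / √(a0 : ℝ) = 4 / √(a0 : ℝ) - 1 / √(a0 : ℝ) := by ring
      linarith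
  obtain ⟨a, ha1, ha2, ha3, ha4⟩ := hmain
  have ha20 : 2 ^ 20 ≤ a := by omega
  obtain ⟨i, j, hi1, hj1, hdi, hdj, hij, hji⟩ :=
    exists_pair PP hPP a b ha20 (two_div_sqrt_gt ha20 ha3)
  refine ⟨b, i, j, ?_, by linarith⟩
  refine ⟨fun q hq => hPP q (Finset.filter_subset _ _ hq), by omega, hij, hji, ?_, ?_, ?_, ?_⟩
  · rw [Pb_filter PP (by omega)]; exact hdi
  · rw [Pb_filter PP hj1]; exact hdj
  · exact H1_of PP b i (by omega) (by omega) hW
  · intro ρ hρ hρi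
    rw [Finset.mem_filter] at hρ
    set t := Nat.log 2 ρ with ht
    have hρ0 : ρ ≠ 0 := (hPP ρ hρ.1).ne_zero
    have h1 : 2 ^ t ≤ ρ := Nat.pow_log_le_self 2 hρ0
    have h2 : ρ < 2 ^ (t + 1) := Nat.lt_pow_succ_log_self (by norm_num) ρ
    have h3 : i + 1 ≤ t := (Nat.le_log_iff_pow_le (by norm_num) hρ0).2 hρi
    have h4 : t < b := (Nat.pow_lt_pow_iff_right (show 1 < 2 by norm_num)).1 (lt_of_le_of_lt h1 hρ.2)
    have h5 : t ∉ Br := fun h => by
      have := ha4 t h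
      omega
    have h6 : 2 ^ (32 * (t + 1)) ≤ pr (PP.filter (fun p => p < 2 ^ t)) := by
      by_contra h
      rw [not_le] at h
      apply h5
      rw [hBr, Finset.mem_filter, Finset.mem_Ico]
      refine ⟨⟨by omega, h4⟩, ⟨ρ, ?_⟩, h⟩
      exact Finset.mem_filter.2 ⟨hρ.1, h1, h2⟩
    calc ρ ^ 32 ≤ (2 ^ (t + 1)) ^ 32 := Nat.pow_le_pow_left h2.le _
      _ = 2 ^ (32 * (t + 1)) := by rw [← pow_mul, mul_comm]
      _ ≤ pr (PP.filter (fun p => p < 2 ^ t)) := h6
      _ ≤ _ := by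
          apply pr_mono
          · intro q hq
            rw [Finset.mem_filter] at hq
            rw [Finset.mem_filter, Finset.mem_filter]
            have : 2 ^ t ≤ 2 ^ b := Nat.pow_le_pow_right (by norm_num) h4.le
            exact ⟨⟨hq.1, by omega⟩, by omega⟩
          · intro q hq
            exact (hPP q (Finset.filter_subset _ _ (Finset.filter_subset _ _ hq))).pos

end Pool.Agent.K1H93.W
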