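import Pool.Agent.K1H93.W.CaseI
import Pool.Agent.K1H93.W.Base2

set_option autoImplicit false

/-! # The product of `Q` is semiperfect -/

namespace Pool.Agent.K1H93.W

theorem pr_injOn {Q : Finset ℕ} (hQ : ∀ q ∈ Q, q.Prime) :
    Set.InjOn pr (Q.powerset : Set (Finset ℕ)) := by
  intro S hS T hT h
  rw [Finset.mem_coe, Finset.mem_powerset] at hS hT
  rw [← Nat.primeFactors_prod (fun p hp => hQ p (hS hp)),
    ← Nat.primeFactors_prod (fun p hp => hQ p (hT hp))]
  show (pr S).primeFactors = (pr T).primeFactors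
  rw [h]

theorem sum_range_le (n : ℕ) : ∑ x ∈ Finset.range n, x ≤ n * n := by
  calc ∑ x ∈ Finset.range n, x ≤ ∑ x ∈ Finset.range n, n :=
        Finset.sum_le_sum fun x hx => (Finset.mem_range.1 hx).le
    _ = n * n := by simp

theorem sum_union_le (S T : Finset (Finset ℕ)) (f : Finset ℕ → ℕ) :
    ∑ x ∈ S ∪ T, f x ≤ ∑ x ∈ S, f x + ∑ x ∈ T, f x := by
  have := Finset.sum_union_inter (s₁ := S) (s₂ := T) (f := f)
  omega

namespace Ctx

variable {Q : Finset ℕ} {i j : ℕ} (c : Ctx Q i j)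

include c

theorem prQ_big : 2 ^ (2 * i + 2) ≤ pr Q := by
  have hR := c.R_ge
  have hi := c.hi
  calc 2 ^ (2 * i + 2) ≤ 2 ^ (i * (Pb Q i).card) := by
        apply Nat.pow_le_pow_right (by norm_num)
        calc 2 * i + 2 ≤ i * 3 := by omega
          _ ≤ i * (Pb Q i).card := Nat.mul_le_mul_left _ (by omega)
    _ ≤ pr (Pb Q i) := pr_block_ge subset_rfl rfl
    _ ≤ pr Q := pr_mono (Pb_sub _ _) c.pos

theorem semiperfect (hab : 3 * pr Q ≤ ∑ T ∈ Q.powerset, pr T) :
    ∃ s : Finset ℕ, (∀ d ∈ s, d ∣ pr Q ∧ d < pr Q) ∧ ∑ d ∈ s, d = pr Q := by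
  classical
  have hi := c.hi
  have hji := c.hji
  obtain ⟨A, hA, hbase⟩ := base i c.hi (Pb Q i) (fun p hp => c.prime p (Pb_sub _ _ hp))
    (fun p hp => Pb_mem hp) c.dense_i
  obtain ⟨L, hL⟩ : ∃ L, L = 2 ^ (3 * i / 2 + 3) := ⟨_, rfl⟩
  rw [← hL] at hbase
  set 𝓔 := Q.powerset.filter (fun T => T ≠ Q ∧ 2 ^ (i + 1) ≤ pr T) with h𝓔
  have h𝓔sub : 𝓔 ⊆ Q.powerset := Finset.filter_subset _ _
  have hinj := pr_injOn c.prime
  have hinjE : Set.InjOn pr (𝓔 : Set (Finset ℕ)) := hinj.mono (by exact_mod_cast h𝓔sub)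
  set E := 𝓔.image pr with hE
  have hprQ := c.prQ_big
  have hltQ : ∀ T ⊆ Q, T ≠ Q → pr T < pr Q := by
    intro T hT hTQ
    apply lt_of_le_of_ne (pr_mono hT c.pos)
    intro h
    exact hTQ (hinj (by simpa using hT) (by simp) h)
  have hdisj : Disjoint (Pb Q i) E := by
    rw [Finset.disjoint_left]
    intro p hp hpE
    obtain ⟨T, hT, rfl⟩ := Finset.mem_image.1 hpE
    have h1 := (Finset.mem_filter.1 hT).2.2
    have h2 := (Pb_mem hp).2
    omega
  have hchain : ∀ e ∈ E, e ≤ L + 1 + ∑ d ∈ E.filter (fun d => d < e), d := by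
    intro e he
    obtain ⟨S, hS, rfl⟩ := Finset.mem_image.1 he
    have hS1 := (Finset.mem_filter.1 hS)
    have hSQ := Finset.mem_powerset.1 hS1.1
    rcases Nat.lt_or_ge (pr S) (2 ^ (j + 2)) with h | h
    · have : 2 ^ (j + 2) ≤ L := by
        rw [hL]
        exact Nat.pow_le_pow_right (by norm_num) (by omega)
      omega
    · have h1 := c.chain hSQ hS1.2.1 h
      have h2 : lowSum Q i S ≤ ∑ d ∈ E.filter (fun d => d < pr S), d := by
        unfold lowSum
        rw [← Finset.sum_image (s := Q.powerset.filter (fun T => 2 ^ (i + 1) ≤ pr T ∧ pr T < pr S))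
          (g := pr) (f := fun d => d)]
        · apply Finset.sum_le_sum_of_subset
          intro d hd
          obtain ⟨T, hT, rfl⟩ := Finset.mem_image.1 hd
          rw [Finset.mem_filter] at hT
          rw [Finset.mem_filter]
          refine ⟨Finset.mem_image.2 ⟨T, ?_, rfl⟩, hT.2.2⟩
          rw [h𝓔, Finset.mem_filter]
          refine ⟨hT.1, ?_, hT.2.1⟩
          rintro rfl
          have := pr_mono hSQ c.pos
          omega
        · exact hinj.mono (by
            intro T hT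
            exact (Finset.mem_filter.1 hT).1)
      omega
  have hext := ext hbase E hdisj hchain
  have hsumE : ∑ T ∈ Q.powerset, pr T ≤ ∑ d ∈ E, d + pr Q + 2 ^ (2 * i + 2) := by
    have h1 : ∑ d ∈ E, d = ∑ T ∈ 𝓔, pr T := Finset.sum_image hinjE
    have h2 : Q.powerset ⊆ (𝓔 ∪ {Q}) ∪ Q.powerset.filter (fun T => pr T < 2 ^ (i + 1)) := by
      intro T hT
      simp only [Finset.mem_union, h𝓔, Finset.mem_filter, Finset.mem_singleton]
      by_cases h3 : T = Q
      · exact Or.inl (Or.inr h3)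
      · rcases Nat.lt_or_ge (pr T) (2 ^ (i + 1)) with h4 | h4
        · exact Or.inr ⟨hT, h4⟩
        · exact Or.inl (Or.inl ⟨hT, h3, h4⟩)
    have h3 : ∑ T ∈ Q.powerset.filter (fun T => pr T < 2 ^ (i + 1)), pr T ≤ 2 ^ (2 * i + 2) := by
      rw [← Finset.sum_image (s := Q.powerset.filter (fun T => pr T < 2 ^ (i + 1)))
          (g := pr) (f := fun d => d)]
      · calc ∑ d ∈ (Q.powerset.filter (fun T => pr T < 2 ^ (i + 1))).image pr, d
            ≤ ∑ d ∈ Finset.range (2 ^ (i + 1)), d := by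
              apply Finset.sum_le_sum_of_subset
              intro d hd
              obtain ⟨T, hT, rfl⟩ := Finset.mem_image.1 hd
              exact Finset.mem_range.2 (Finset.mem_filter.1 hT).2
          _ ≤ 2 ^ (i + 1) * 2 ^ (i + 1) := sum_range_le _
          _ = 2 ^ (2 * i + 2) := by rw [← pow_add]; congr 1; ring
      · exact hinj.mono (by
          intro T hT
          exact (Finset.mem_filter.1 hT).1)
    calc ∑ T ∈ Q.powerset, pr T
        ≤ ∑ T ∈ (𝓔 ∪ {Q}) ∪ Q.powerset.filter (fun T => pr T < 2 ^ (i + 1)), pr T :=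
          Finset.sum_le_sum_of_subset h2
      _ ≤ ∑ T ∈ 𝓔 ∪ {Q}, pr T + ∑ T ∈ Q.powerset.filter (fun T => pr T < 2 ^ (i + 1)), pr T :=
          sum_union_le _ _ _
      _ ≤ (∑ T ∈ 𝓔, pr T + ∑ T ∈ ({Q} : Finset (Finset ℕ)), pr T) + 2 ^ (2 * i + 2) :=
          Nat.add_le_add (sum_union_le _ _ _) h3
      _ = ∑ d ∈ E, d + pr Q + 2 ^ (2 * i + 2) := by rw [h1, Finset.sum_singleton]
  have hA2 : A ≤ pr Q := by
    refine hA.trans (le_trans ?_ hprQ)
    exact Nat.pow_le_pow_right (by norm_num) (by omega)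
  obtain ⟨s, hs, hsum⟩ := hext (pr Q) hA2 (by omega)
  refine ⟨s, ?_, hsum⟩
  intro d hd
  rcases Finset.mem_union.1 (hs hd) with h | h
  · refine ⟨Finset.dvd_prod_of_mem _ (Pb_sub _ _ h), ?_⟩
    have h1 := (Pb_mem h).2
    have h2 : 2 ^ (i + 1) ≤ 2 ^ (2 * i + 2) := Nat.pow_le_pow_right (by norm_num) (by omega)
    omega
  · obtain ⟨T, hT, rfl⟩ := Finset.mem_image.1 h
    rw [h𝓔, Finset.mem_filter, Finset.mem_powerset] at hT
    exact ⟨Finset.prod_dvd_prod_of_subset _ _ _ hT.1, hltQ T hT.1 hT.2.1⟩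

end Ctx

end Pool.Agent.K1H93.W
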